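import Pool.Agent.H304Z.NH.Spec3

set_option autoImplicit false
set_option linter.unusedSectionVars false
set_option linter.unusedVariables false

/-!
Conjugation of a feasible family by a compressing element.
-/

namespace Pool.Agent.H566Z.NHLC

open Matrix Finset Pool.Agent.H304Z.NH
open scoped MatrixOrder ComplexOrder

section basic

variable {n : Type} [Fintype n] [DecidableEq n] {ι : Type} [Fintype ι]

theorem sumL {U : Mat n} (hU : IsProj U) {m : ℝ} {y : ι → Mat n} (h : LL y ≤ m • U) (x : Mat n) :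
    ∑ a, nsq (x * y a) ≤ m * nsq (x * U) := by
  have e : ∑ a, nsq (x * y a) = tr (xᴴ * x * LL y) := by
    rw [LL, Finset.mul_sum, tr_sum]
    exact sum_congr rfl fun a _ => nsq_mul _ _
  rw [e, hU.nsq_mul, ← tr_smul, ← Matrix.mul_smul]
  exact tr_mul_le (star_mul_nonneg x) h

theorem sumR {U : Mat n} (hU : IsProj U) {m : ℝ} {y : ι → Mat n} (h : RR y ≤ m • U) (x : Mat n) :
    ∑ a, nsq (y a * x) ≤ m * nsq (U * x) := by
  have e : ∑ a, nsq (y a * x) = tr (x * xᴴ * RR y) := by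
    rw [RR, Finset.mul_sum, tr_sum]
    exact sum_congr rfl fun a _ => by rw [nsq_mul, tr_comm]
  rw [e, hU.nsq_mul', ← tr_smul, ← Matrix.mul_smul]
  exact tr_mul_le (mul_star_nonneg x) h

theorem bes_conj {y : ι → Mat n} (hy : Bes y) {A B : Mat n} (hA : A * Aᴴ ≤ 1) (hB : Bᴴ * B ≤ 1) :
    Bes (fun a => A * y a * B) := by
  intro x
  have e : ∀ a, trace ((A * y a * B)ᴴ * x) = trace ((y a)ᴴ * (Aᴴ * x * Bᴴ)) := by
    intro a
    rw [conjTranspose_mul, conjTranspose_mul, Matrix.mul_assoc Bᴴ, trace_mul_comm Bᴴ]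
    simp only [Matrix.mul_assoc]
  simp only [e]
  refine (hy _).trans ?_
  have h1 : nsq (Aᴴ * x * Bᴴ) ≤ nsq (Aᴴ * x) :=
    nsq_mul_le_right (by rw [conjTranspose_conjTranspose]; exact hB) _
  have h2 : nsq (Aᴴ * x) ≤ nsq x :=
    nsq_mul_le_left (by rw [conjTranspose_conjTranspose]; exact hA) _
  exact h1.trans h2

theorem LL_conj (y : ι → Mat n) (A : Mat n) {B : Mat n} (hB : B * Bᴴ ≤ 1) :
    LL (fun a => A * y a * B) ≤ A * LL y * Aᴴ := by
  rw [LL, LL, Finset.mul_sum, Finset.sum_mul]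
  refine Finset.sum_le_sum fun a _ => ?_
  have h := conj_le' hB (A * y a)
  rw [Matrix.mul_one] at h
  simpa only [conjTranspose_mul, Matrix.mul_assoc] using h

theorem RR_conj (y : ι → Mat n) {A : Mat n} (hA : Aᴴ * A ≤ 1) (B : Mat n) :
    RR (fun a => A * y a * B) ≤ Bᴴ * RR y * B := by
  rw [RR, RR, Finset.mul_sum, Finset.sum_mul]
  refine Finset.sum_le_sum fun a _ => ?_
  have h := conj_le hA (y a * B)
  rw [Matrix.mul_one] at h
  simpa only [conjTranspose_mul, Matrix.mul_assoc] using h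

theorem nsq_diff_mul {A B : Mat n} (hA : IsU A) (hB : IsU B) (w : Mat n) :
    nsq ((A - B) * w) ≤ 4 * nsq w := by
  have h := nsq_sub_le (A * w) (B * w)
  rw [nsq_U_mul hA, nsq_U_mul hB] at h
  rw [Matrix.sub_mul]
  linarith

theorem nsq_mul_diff {A B : Mat n} (hA : IsU A) (hB : IsU B) (w : Mat n) :
    nsq (w * (A - B)) ≤ 4 * nsq w := by
  have h := nsq_sub_le (w * A) (w * B)
  rw [nsq_mul_U hA, nsq_mul_U hB] at h
  rw [Matrix.mul_sub]
  linarith

theorem nsq_cm_mul {A B : Mat n} (hA : IsU A) (hB : IsU B) (U : Mat n) :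
    nsq (cm (A * B) U) ≤ 2 * nsq (cm B U) + 2 * nsq (cm A U) := by
  have e : cm (A * B) U = A * cm B U + cm A U * B := by
    simp only [cm]; noncomm_ring
  have h := nsq_add_le (A * cm B U) (cm A U * B)
  rw [nsq_U_mul hA, nsq_mul_U hB] at h
  rw [e]
  exact h

theorem nsq_add4_le (a b c d : Mat n) :
    nsq (a + b + c + d) ≤ 4 * nsq a + 4 * nsq b + 4 * nsq c + 4 * nsq d := by
  have h1 := nsq_add_le (a + b) (c + d)
  have h2 := nsq_add_le a b
  have h3 := nsq_add_le c d
  rw [add_assoc (a + b)]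
  linarith

theorem dist_le {U R B : Mat n} (hU : IsProj U) (hR : IsU R) (hB : IsU B) {m : ℝ} (hm : 0 ≤ m)
    {y : ι → Mat n} (hL : LL y ≤ m • U) (hRR : RR y ≤ m • U) :
    ∑ a, nsq (Rᴴ * y a * B - U * (Rᴴ * y a * B) * U) ≤
      2 * (m * nsq (cm R U)) + 2 * (m * nsq (cm B U)) := by
  have h1 : ∀ a, nsq (Rᴴ * y a * B - U * (Rᴴ * y a * B) * U) ≤
      2 * nsq ((1 - U) * Rᴴ * y a) + 2 * nsq (y a * (B * (1 - U))) := by
    intro a
    have e : Rᴴ * y a * B - U * (Rᴴ * y a * B) * U =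
        (1 - U) * Rᴴ * y a * B + U * (Rᴴ * (y a * (B * (1 - U)))) := by noncomm_ring
    have h := nsq_add_le ((1 - U) * Rᴴ * y a * B) (U * (Rᴴ * (y a * (B * (1 - U)))))
    have h2 := nsq_mul_le_left hU.star_mul_le (Rᴴ * (y a * (B * (1 - U))))
    rw [nsq_U_mul hR.star] at h2
    rw [nsq_mul_U hB] at h
    rw [e]
    linarith
  have h2 := sumL hU hL ((1 - U) * Rᴴ)
  have h3 := sumR hU hRR (B * (1 - U))
  have h4 : nsq ((1 - U) * Rᴴ * U) ≤ nsq (cm R U) := by
    have e : (1 - U) * Rᴴ * U = (1 - U) * cm Rᴴ U := by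
      have e1 : (1 - U) * cm Rᴴ U = (1 - U) * Rᴴ * U - (U - U * U) * Rᴴ := by
        simp only [cm]; noncomm_ring
      rw [e1, hU.2]
      simp
    rw [e, ← nsq_cm_star hR]
    exact nsq_mul_le_left hU.compl.star_mul_le _
  have h5 : nsq (U * (B * (1 - U))) ≤ nsq (cm B U) := by
    have e : U * (B * (1 - U)) = -(cm B U * (1 - U)) := by
      have e1 : -(cm B U * (1 - U)) = U * (B * (1 - U)) - B * (U - U * U) := by
        simp only [cm]; noncomm_ring
      rw [e1, hU.2]
      simp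
    rw [e, nsq_neg]
    exact nsq_mul_le_right hU.compl.mul_star_le _
  have h6 := Finset.sum_le_sum fun a (_ : a ∈ (univ : Finset ι)) => h1 a
  rw [Finset.sum_add_distrib, ← Finset.mul_sum, ← Finset.mul_sum] at h6
  have h7 := mul_le_mul_of_nonneg_left h4 hm
  have h8 := mul_le_mul_of_nonneg_left h5 hm
  linarith

theorem energy_le {U R C v v' : Mat n} (hU : IsProj U) (hR : IsU R) (hC : IsU C) (hv : IsU v)
    (hv' : IsU v') {m κ : ℝ} (hm : 0 ≤ m) {y : ι → Mat n} (hL : LL y ≤ m • U)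
    (hRR : RR y ≤ m • U) (k1 : nsq (cm R U) ≤ κ) (k2 : nsq (cm C U) ≤ κ)
    (k3 : nsq ((R * v - v' * R) * U) ≤ 4 * κ) (k4 : nsq (U * (R * v - v' * R)) ≤ 4 * κ)
    (k5 : nsq (U * (v' * C - C * v')) ≤ 4 * κ) :
    ∑ a, nsq (cm v (Rᴴ * y a * (C * R))) ≤ 144 * (m * κ) + 4 * ∑ a, nsq (cm v' (y a)) := by
  obtain ⟨w, hw⟩ : ∃ w, w = R * v * Rᴴ := ⟨_, rfl⟩
  have hwU : IsU w := by rw [hw]; exact (hR.mul hv).mul hR.star
  have eD : w - v' = (R * v - v' * R) * Rᴴ := by
    rw [Matrix.sub_mul, Matrix.mul_assoc v', hR.2, Matrix.mul_one, hw]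
  have h1 : ∀ a, nsq (cm v (Rᴴ * y a * (C * R))) ≤
      4 * nsq ((w - v') * y a) + 4 * nsq (cm v' (y a)) + 4 * nsq (y a * (v' * C - C * v')) +
        4 * nsq (y a * (C * (v' - w))) := by
    intro a
    have e : R * cm v (Rᴴ * y a * (C * R)) * Rᴴ =
        (w - v') * y a * C + cm v' (y a) * C + y a * (v' * C - C * v') + y a * (C * (v' - w)) := by
      have e1 : R * cm v (Rᴴ * y a * (C * R)) * Rᴴ =
          (R * v * Rᴴ) * y a * C * (R * Rᴴ) - (R * Rᴴ) * y a * C * (R * v * Rᴴ) := by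
        simp only [cm]; noncomm_ring
      rw [e1, hR.2, ← hw]
      simp only [cm]; noncomm_ring
    have h := nsq_add4_le ((w - v') * y a * C) (cm v' (y a) * C) (y a * (v' * C - C * v'))
      (y a * (C * (v' - w)))
    rw [nsq_mul_U hC, nsq_mul_U hC, ← e, nsq_mul_U hR.star, nsq_U_mul hR] at h
    exact h
  have a1 := sumL hU hL (w - v')
  have a3 := sumR hU hRR (v' * C - C * v')
  have a4 := sumR hU hRR (C * (v' - w))
  have b1 : nsq ((w - v') * U) ≤ 16 * κ := by
    have e : (w - v') * U = (R * v - v' * R) * U * Rᴴ + (R * v - v' * R) * cm Rᴴ U := by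
      rw [eD]; simp only [cm]; noncomm_ring
    have h := nsq_add_le ((R * v - v' * R) * U * Rᴴ) ((R * v - v' * R) * cm Rᴴ U)
    have h2 := nsq_diff_mul (hR.mul hv) (hv'.mul hR) (cm Rᴴ U)
    rw [nsq_cm_star hR] at h2
    rw [nsq_mul_U hR.star] at h
    rw [e]
    linarith
  have b4 : nsq (U * (C * (v' - w))) ≤ 16 * κ := by
    have e : U * (C * (v' - w)) = cm C U * (w - v') - C * (U * (w - v')) := by
      simp only [cm]; noncomm_ring
    have h := nsq_sub_le (cm C U * (w - v')) (C * (U * (w - v')))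
    have h2 := nsq_mul_diff hwU hv' (cm C U)
    have h3 : nsq (U * (w - v')) = nsq (U * (R * v - v' * R)) := by
      rw [eD, ← Matrix.mul_assoc, nsq_mul_U hR.star]
    rw [nsq_U_mul hC, h3] at h
    rw [e]
    linarith
  have h6 := Finset.sum_le_sum fun a (_ : a ∈ (univ : Finset ι)) => h1 a
  rw [Finset.sum_add_distrib, Finset.sum_add_distrib, Finset.sum_add_distrib, ← Finset.mul_sum,
    ← Finset.mul_sum, ← Finset.mul_sum, ← Finset.mul_sum] at h6
  have c1 := mul_le_mul_of_nonneg_left b1 hm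
  have c3 := mul_le_mul_of_nonneg_left k5 hm
  have c4 := mul_le_mul_of_nonneg_left b4 hm
  nlinarith

theorem energy_cut {v : Mat n} (hv : IsU v) (z z' : ι → Mat n) :
    ∑ a, nsq (cm v (z' a)) ≤ 2 * ∑ a, nsq (cm v (z a)) + 8 * ∑ a, nsq (z a - z' a) := by
  rw [Finset.mul_sum, Finset.mul_sum, ← Finset.sum_add_distrib]
  refine Finset.sum_le_sum fun a _ => ?_
  have e : cm v (z' a) = cm v (z a) - cm v (z a - z' a) := by
    rw [cm_sub]; abel
  have h := nsq_sub_le (cm v (z a)) (cm v (z a - z' a))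
  have h2 := nsq_cm_le hv (z a - z' a)
  rw [e]
  linarith

end basic

theorem lc (hCL : S_CL) : S_LC := by
  classical
  intro G _ S θ r c hS hr hc
  choose s' hs' using hr
  choose Wf Cf hCf hW using fun g : G => hCL G S (s' g) (by rw [hS]; exact Subgroup.mem_top _)
  have hsum : 0 ≤ ∑ s ∈ S, (368 + 8 * Cf s) :=
    Finset.sum_nonneg fun s _ => by have := hCf s; positivity
  refine ⟨{r, c} ∪ S.image θ ∪ S.image (fun g => θ (s' g)) ∪ S.biUnion (fun g => (Wf g).image θ),
    10 + ∑ s ∈ S, (368 + 8 * Cf s), by positivity, ?_⟩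
  intro ω hω n _ _ u U hH m hm ι _ y hy
  obtain ⟨hu, hu1, hU, hUpos, hdf, hcm⟩ := hH
  obtain ⟨hB, hL, hRR⟩ := hy
  have mr : r ∈ ({r, c} ∪ S.image θ ∪ S.image (fun g => θ (s' g)) ∪
      S.biUnion (fun g => (Wf g).image θ) : Finset G) := by simp
  have mc : c ∈ ({r, c} ∪ S.image θ ∪ S.image (fun g => θ (s' g)) ∪
      S.biUnion (fun g => (Wf g).image θ) : Finset G) := by simp
  have m1 : ∀ s ∈ S, θ s ∈ ({r, c} ∪ S.image θ ∪ S.image (fun g => θ (s' g)) ∪
      S.biUnion (fun g => (Wf g).image θ) : Finset G) := fun s hs =>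
    mem_union_left _ (mem_union_left _ (mem_union_right _ (mem_image_of_mem _ hs)))
  have m2 : ∀ s ∈ S, θ (s' s) ∈ ({r, c} ∪ S.image θ ∪ S.image (fun g => θ (s' g)) ∪
      S.biUnion (fun g => (Wf g).image θ) : Finset G) := fun s hs =>
    mem_union_left _ (mem_union_right _ (mem_image_of_mem (fun g => θ (s' g)) hs))
  have m3 : ∀ s ∈ S, ∀ a ∈ Wf s, θ a ∈ ({r, c} ∪ S.image θ ∪ S.image (fun g => θ (s' g)) ∪
      S.biUnion (fun g => (Wf g).image θ) : Finset G) := fun s hs a ha =>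
    mem_union_right _ (mem_biUnion.mpr ⟨s, hs, mem_image_of_mem _ ha⟩)
  generalize ({r, c} ∪ S.image θ ∪ S.image (fun g => θ (s' g)) ∪
      S.biUnion (fun g => (Wf g).image θ) : Finset G) = W at hdf hcm mr mc m1 m2 m3
  have hR := hu r
  have hC := hu c
  have hCR := hC.mul hR
  have hX : 0 ≤ ω * (m * tr U) := by positivity
  have hE : 0 ≤ EE (fun g => u (θ g)) S y := Finset.sum_nonneg fun a _ => en_nonneg _ _ _
  have ez : (fun a => U * ((u r)ᴴ * y a * (u c * u r)) * U) =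
      fun a => (U * (u r)ᴴ) * y a * ((u c * u r) * U) := by
    funext a
    simp only [Matrix.mul_assoc]
  have p1 : (U * (u r)ᴴ) * (U * (u r)ᴴ)ᴴ ≤ 1 := by
    have e : (U * (u r)ᴴ) * (U * (u r)ᴴ)ᴴ = U * ((u r)ᴴ * u r) * Uᴴ := by
      rw [conjTranspose_mul, conjTranspose_conjTranspose]
      simp only [Matrix.mul_assoc]
    rw [e, hR.1, Matrix.mul_one]
    exact hU.mul_star_le
  have p2 : ((u c * u r) * U)ᴴ * ((u c * u r) * U) ≤ 1 := by
    have e : ((u c * u r) * U)ᴴ * ((u c * u r) * U) =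
        Uᴴ * ((u c * u r)ᴴ * (u c * u r)) * U := by
      rw [conjTranspose_mul (u c * u r) U]
      simp only [Matrix.mul_assoc]
    rw [e, hCR.1, Matrix.mul_one]
    exact hU.star_mul_le
  have hdist : ∑ a, nsq ((u r)ᴴ * y a * (u c * u r) - U * ((u r)ᴴ * y a * (u c * u r)) * U) ≤
      10 * (ω * (m * tr U)) := by
    have h := dist_le hU hR hCR hm.le hL hRR
    have h1 := nsq_cm_mul hC hR U
    have h2 := hcm r mr
    have h3 := hcm c mc
    have h4 : nsq (cm (u c * u r) U) ≤ 4 * (ω * tr U) := by linarith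
    have h5 := mul_le_mul_of_nonneg_left h4 hm.le
    have h6 := mul_le_mul_of_nonneg_left h2 hm.le
    nlinarith
  refine ⟨?_, ?_, ?_, ?_, ?_⟩
  · rw [ez]
    exact bes_conj hB p1 p2
  · rw [ez]
    refine (LL_conj y _ (mul_star_le_one p2)).trans (le_of_eq ?_)
    rw [conjTranspose_mul, conjTranspose_conjTranspose, hU.1]
    simp only [Matrix.mul_assoc]
  · rw [ez]
    refine (RR_conj y (star_mul_le_one p1) _).trans (le_of_eq ?_)
    rw [conjTranspose_mul (u c * u r) U, hU.1]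
    simp only [Matrix.mul_assoc]
  · refine hdist.trans ?_
    exact mul_le_mul_of_nonneg_right (by linarith) hX
  · have key : ∀ s ∈ S, ∑ a, nsq (cm (u (θ s)) (U * ((u r)ᴴ * y a * (u c * u r)) * U)) ≤
        (368 + 8 * Cf s) * (EE (fun g => u (θ g)) S y + ω * (m * tr U)) := by
      intro s hs
      have g1 : r * θ s = θ (s' s) * r := by
        rw [← hs' s]; group
      have g2 : θ (s' s) * c = c * θ (s' s) := by
        rw [← hs' s]; exact (hc s).symm
      have e1 : u r * u (θ s) - u (θ (s' s)) * u r = df u r (θ s) - df u (θ (s' s)) r := by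
        simp only [df]
        rw [g1]; abel
      have e2 : u (θ (s' s)) * u c - u c * u (θ (s' s)) =
          df u (θ (s' s)) c - df u c (θ (s' s)) := by
        simp only [df]
        rw [g2]; abel
      have d1 := hdf r mr (θ s) (m1 s hs)
      have d2 := hdf (θ (s' s)) (m2 s hs) r mr
      have d3 := hdf (θ (s' s)) (m2 s hs) c mc
      have d4 := hdf c mc (θ (s' s)) (m2 s hs)
      have k3 : nsq ((u r * u (θ s) - u (θ (s' s)) * u r) * U) ≤ 4 * (ω * tr U) := by
        rw [e1, Matrix.sub_mul]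
        have := nsq_sub_le (df u r (θ s) * U) (df u (θ (s' s)) r * U)
        linarith [d1.1, d2.1]
      have k4 : nsq (U * (u r * u (θ s) - u (θ (s' s)) * u r)) ≤ 4 * (ω * tr U) := by
        rw [e1, Matrix.mul_sub]
        have := nsq_sub_le (U * df u r (θ s)) (U * df u (θ (s' s)) r)
        linarith [d1.2, d2.2]
      have k5 : nsq (U * (u (θ (s' s)) * u c - u c * u (θ (s' s)))) ≤ 4 * (ω * tr U) := by
        rw [e2, Matrix.mul_sub]
        have := nsq_sub_le (U * df u (θ (s' s)) c) (U * df u c (θ (s' s)))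
        linarith [d3.2, d4.2]
      have h1 := energy_le hU hR hC (hu (θ s)) (hu (θ (s' s))) hm.le hL hRR (hcm r mr) (hcm c mc)
        k3 k4 k5
      have h2 := energy_cut (hu (θ s)) (fun a => (u r)ᴴ * y a * (u c * u r))
        (fun a => U * ((u r)ᴴ * y a * (u c * u r)) * U)
      have h3 := hW s n (fun g => u (θ g)) (fun g => hu _) (by simp only [map_one]; exact hu1) ι y
        (ω * (m * tr U)) hX (fun a ha b hb => by
          have e : df (fun g => u (θ g)) a b = df u (θ a) (θ b) := by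
            simp only [df, map_mul]
          have d := hdf (θ a) (m3 s hs a ha) (θ b) (m3 s hs b hb)
          have q1 := sumL hU hL (df u (θ a) (θ b))
          have q2 := sumR hU hRR (df u (θ a) (θ b))
          have q3 := mul_le_mul_of_nonneg_left d.1 hm.le
          have q4 := mul_le_mul_of_nonneg_left d.2 hm.le
          rw [e]
          constructor <;> nlinarith)
      have h4 : ∑ i, nsq (cm (u (θ (s' s))) (y i)) ≤
          Cf s * (EE (fun g => u (θ g)) S y + ω * (m * tr U)) := h3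
      have h5 : m * (ω * tr U) = ω * (m * tr U) := by ring
      rw [h5] at h1
      nlinarith
    have e : EE (fun g => u (θ g)) S (fun a => U * ((u r)ᴴ * y a * (u c * u r)) * U) =
        ∑ s ∈ S, ∑ a, nsq (cm (u (θ s)) (U * ((u r)ᴴ * y a * (u c * u r)) * U)) := by
      rw [EE, Finset.sum_comm]
      rfl
    rw [e]
    refine (Finset.sum_le_sum key).trans ?_
    rw [← Finset.sum_mul]
    exact mul_le_mul_of_nonneg_right (by linarith) (by positivity)

end Pool.Agent.H566Z.NHLC
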