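import Pool.Agent.H566Z.DecMart

/-!
A space with a decoupling constant `C` that contains a `Good n` space isometrically has
`n ≤ 75 C ^ 2`.
-/

set_option autoImplicit false

namespace Pool.Agent.H566Z.Dec

open Finset

theorem bound_of_good {X Y : Type} [NormedAddCommGroup X] [NormedSpace ℝ X]
    [NormedAddCommGroup Y] [NormedSpace ℝ Y] {n : ℕ} (hn : 0 < n) (hY : Good Y n)
    (J : Y →ₗ[ℝ] X) (hJ : ∀ y, ‖J y‖ = ‖y‖) (C : ℝ)
    (hC : ∀ (n : ℕ) (f : (j : Fin n) → (Fin (j : ℕ) → Bool) → X),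
          (1 / 2 ^ n : ℝ) * ∑ ε : Fin n → Bool,
              ‖∑ j : Fin n, (if ε j then (1 : ℝ) else -1) •
                  f j (fun i => ε (Fin.castLE j.isLt.le i))‖ ^ 2
            ≤ C ^ 2 * ((1 / 4 ^ n : ℝ) * ∑ ε : Fin n → Bool, ∑ δ : Fin n → Bool,
              ‖∑ j : Fin n, (if δ j then (1 : ℝ) else -1) •
                  f j (fun i => ε (Fin.castLE j.isLt.le i))‖ ^ 2)) :
    (n : ℝ) ≤ 75 * C ^ 2 := by
  obtain ⟨e, U, d, -, -, hd, hl, hu⟩ := hY 0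
  have key := hC e (fun j η => J (d j (ext η)))
  have hsum : ∀ ε δ : Fin e → Bool,
      ‖∑ j : Fin e, (if δ j then (1 : ℝ) else -1) •
          J (d j (ext (fun i : Fin (j : ℕ) => ε (Fin.castLE j.isLt.le i))))‖
        = ‖∑ j ∈ Ico 0 e, sg (ext δ j) • d j (ext ε) + (0 : ℝ) • U (ext ε)‖ := by
    intro ε δ
    rw [zero_smul, add_zero, ← hJ, map_sum, ← Finset.range_eq_Ico,
      ← Fin.sum_univ_eq_sum_range (fun j => J (sg (ext δ j) • d j (ext ε))) e]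
    congr 1
    refine Finset.sum_congr rfl fun j _ => ?_
    have h1 : d j (ext (fun i : Fin (j : ℕ) => ε (Fin.castLE j.isLt.le i))) = d j (ext ε) := by
      refine hd j _ _ fun i hi => ?_
      have hie : i < e := lt_trans hi j.isLt
      simp [ext, hi, hie]
    have h2 : sg (ext δ j) = (if δ j then (1 : ℝ) else -1) := by simp [sg, ext]
    rw [h1, map_smul, h2]
  simp only [hsum] at key
  have hc := c5_pos
  have hnpos : (0 : ℝ) < n := by exact_mod_cast hn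
  set K : ℝ := 3 * n * (c5 ^ n) ^ 2 with hK
  have hKpos : 0 < K := by positivity
  have hK2 : K ^ 2 = 5 ^ n * (0 ^ 2 + 3 * n) ^ 2 := by
    calc K ^ 2 = (c5 ^ 4) ^ n * (0 ^ 2 + 3 * n) ^ 2 := by rw [hK]; ring
      _ = _ := by rw [c5_pow4]
  have hcard : (Fintype.card (Fin e → Bool) : ℝ) = 2 ^ e := by simp
  have hlow : (2 : ℝ) ^ e * ((n / 5) * c5 ^ n) ^ 2 ≤ ∑ ε : Fin e → Bool,
      ‖∑ j ∈ Ico 0 e, sg (ext ε j) • d j (ext ε) + (0 : ℝ) • U (ext ε)‖ ^ 2 := by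
    rw [← hcard, ← nsmul_eq_mul, ← Finset.card_univ, ← Finset.sum_const]
    refine Finset.sum_le_sum fun ε _ => ?_
    have := hl (ext ε) 0
    rw [zero_add] at this
    exact pow_le_pow_left₀ (by positivity) this 2
  have hup1 : ∀ ε : Fin e → Bool, ∑ δ : Fin e → Bool,
      ‖∑ j ∈ Ico 0 e, sg (ext δ j) • d j (ext ε) + (0 : ℝ) • U (ext ε)‖ ^ 2 ≤ 2 ^ e * K := by
    intro ε
    have h1 := hu e le_rfl (ext ε) 0
    rw [← hK2] at h1
    have h2 : 2 * K * ∑ δ : Fin e → Bool,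
        ‖∑ j ∈ Ico 0 e, sg (ext δ j) • d j (ext ε) + (0 : ℝ) • U (ext ε)‖ ^ 2
        ≤ ∑ δ : Fin e → Bool,
          (‖∑ j ∈ Ico 0 e, sg (ext δ j) • d j (ext ε) + (0 : ℝ) • U (ext ε)‖ ^ 4 + K ^ 2) := by
      rw [Finset.mul_sum]
      refine Finset.sum_le_sum fun δ _ => ?_
      nlinarith [sq_nonneg
        (‖∑ j ∈ Ico 0 e, sg (ext δ j) • d j (ext ε) + (0 : ℝ) • U (ext ε)‖ ^ 2 - K)]
    rw [Finset.sum_add_distrib, Finset.sum_const, Finset.card_univ, nsmul_eq_mul, hcard] at h2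
    have h3 : 2 * K * ∑ δ : Fin e → Bool,
        ‖∑ j ∈ Ico 0 e, sg (ext δ j) • d j (ext ε) + (0 : ℝ) • U (ext ε)‖ ^ 2
        ≤ 2 * K * (2 ^ e * K) := by nlinarith
    exact le_of_mul_le_mul_left h3 (by positivity)
  have hup : ∑ ε : Fin e → Bool, ∑ δ : Fin e → Bool,
      ‖∑ j ∈ Ico 0 e, sg (ext δ j) • d j (ext ε) + (0 : ℝ) • U (ext ε)‖ ^ 2
        ≤ 2 ^ e * (2 ^ e * K) := by
    rw [← hcard, ← nsmul_eq_mul, ← Finset.card_univ, ← Finset.sum_const]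
    refine Finset.sum_le_sum fun ε _ => ?_
    have := hup1 ε
    rwa [← hcard, ← Finset.card_univ] at this
  have h2e : (0 : ℝ) < 2 ^ e := by positivity
  have h4e : (4 : ℝ) ^ e = 2 ^ e * 2 ^ e := by rw [← mul_pow]; norm_num
  have a1 : ((n / 5) * c5 ^ n) ^ 2 ≤ (1 / 2 ^ e : ℝ) * ∑ ε : Fin e → Bool,
      ‖∑ j ∈ Ico 0 e, sg (ext ε j) • d j (ext ε) + (0 : ℝ) • U (ext ε)‖ ^ 2 := by
    rw [one_div, ← div_eq_inv_mul, le_div_iff₀ h2e]
    linarith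
  have a2 : (1 / 4 ^ e : ℝ) * ∑ ε : Fin e → Bool, ∑ δ : Fin e → Bool,
      ‖∑ j ∈ Ico 0 e, sg (ext δ j) • d j (ext ε) + (0 : ℝ) • U (ext ε)‖ ^ 2 ≤ K := by
    rw [one_div, ← div_eq_inv_mul, div_le_iff₀ (by positivity), h4e]
    linarith
  have a3 : ((n / 5) * c5 ^ n) ^ 2 ≤ C ^ 2 * K :=
    le_trans a1 (le_trans key (mul_le_mul_of_nonneg_left a2 (sq_nonneg C)))
  have hcn : 0 < (n : ℝ) * (c5 ^ n) ^ 2 := by positivity
  have a4 : ((n : ℝ) * (c5 ^ n) ^ 2) * n ≤ ((n : ℝ) * (c5 ^ n) ^ 2) * (75 * C ^ 2) := by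
    rw [hK] at a3
    nlinarith
  exact le_of_mul_le_mul_left a4 hcn

end Pool.Agent.H566Z.Dec
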