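import Pool.Agent.H566Z.DecSpace

/-!
The predictable Rademacher sums on a binary tree of coins (in-order), for which the
coupled sum grows linearly in the depth and the decoupled one like its square root.
-/

set_option autoImplicit false

namespace Pool.Agent.H566Z.Dec

open Finset

/-- The sign of a coin. -/
def sg (b : Bool) : ℝ := if b then 1 else -1

/-- A finite string of coins, extended by `false`. -/
def ext {L : ℕ} (δ : Fin L → Bool) (i : ℕ) : Bool := if h : i < L then δ ⟨i, h⟩ else false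

/-- The fourth root of five. -/
noncomputable def c5 : ℝ := Real.sqrt (Real.sqrt 5)

lemma c5_pos : 0 < c5 := Real.sqrt_pos.mpr (Real.sqrt_pos.mpr (by norm_num))

lemma c5_pow4 : c5 ^ 4 = 5 := by
  have h1 : c5 ^ 2 = Real.sqrt 5 := Real.sq_sqrt (Real.sqrt_nonneg _)
  have h2 : Real.sqrt 5 ^ 2 = 5 := Real.sq_sqrt (by norm_num)
  calc c5 ^ 4 = (c5 ^ 2) ^ 2 := by ring
    _ = 5 := by rw [h1, h2]

/-- The inductive invariant. -/
def Good (X : Type) [NormedAddCommGroup X] [NormedSpace ℝ X] (n : ℕ) : Prop :=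
  ∀ o : ℕ, ∃ (e : ℕ) (U : (ℕ → Bool) → X) (d : ℕ → (ℕ → Bool) → X), o ≤ e ∧
    (∀ ε ε' : ℕ → Bool, (∀ i < e, ε i = ε' i) → U ε = U ε') ∧
    (∀ (j : ℕ) (ε ε' : ℕ → Bool), (∀ i < j, ε i = ε' i) → d j ε = d j ε') ∧
    (∀ (ε : ℕ → Bool) (t : ℝ),
      (t + n / 5) * c5 ^ n ≤ ‖∑ j ∈ Ico o e, sg (ε j) • d j ε + t • U ε‖) ∧
    (∀ L : ℕ, e ≤ L → ∀ (ε : ℕ → Bool) (t : ℝ),
      ∑ δ : Fin L → Bool, ‖∑ j ∈ Ico o e, sg (ext δ j) • d j ε + t • U ε‖ ^ 4
        ≤ 2 ^ L * (5 ^ n * (t ^ 2 + 3 * n) ^ 2))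

lemma good_zero : Good ℝ 0 := by
  intro o
  refine ⟨o, fun _ => 1, fun _ _ => 0, le_rfl, fun _ _ _ => rfl, fun _ _ _ _ => rfl, ?_, ?_⟩
  · intro ε t
    simpa using le_abs_self t
  · intro L _ ε t
    have : |t| ^ 4 = (t ^ 2) ^ 2 := by
      rw [← abs_pow, abs_of_nonneg (by positivity)]; ring
    simp [this]

lemma low_aux {a b a' N : ℝ} (hN0 : 0 ≤ N) (hN : N ^ 4 = (a ^ 2 + b ^ 2) ^ 2 + (a' ^ 2) ^ 2) :
    2 * a + 2 * b + a' ≤ c5 ^ 3 * N := by
  have h1 : (2 * a + 2 * b + a') ^ 2 ≤ 5 * (2 * (a ^ 2 + b ^ 2) + a' ^ 2) := by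
    nlinarith [sq_nonneg (a - b), sq_nonneg (a - a'), sq_nonneg (b - a')]
  have h2 : (2 * (a ^ 2 + b ^ 2) + a' ^ 2) ^ 2 ≤ 5 * N ^ 4 := by
    rw [hN]
    nlinarith [sq_nonneg ((a ^ 2 + b ^ 2) - 2 * a' ^ 2)]
  have h3 : ((2 * a + 2 * b + a') ^ 2) ^ 2 ≤ (5 * (2 * (a ^ 2 + b ^ 2) + a' ^ 2)) ^ 2 :=
    pow_le_pow_left₀ (by positivity) h1 2
  have h4 : (c5 ^ 3 * N) ^ 4 = 125 * N ^ 4 := by
    calc (c5 ^ 3 * N) ^ 4 = (c5 ^ 4) ^ 3 * N ^ 4 := by ring
      _ = 125 * N ^ 4 := by rw [c5_pow4]; norm_num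
  have h5 : (2 * a + 2 * b + a') ^ 4 ≤ (c5 ^ 3 * N) ^ 4 := by
    rw [h4]; nlinarith
  have hc := c5_pos
  exact le_of_pow_le_pow_left₀ (n := 4) (by norm_num) (by positivity) h5

lemma low_step {a b a' N T : ℝ} {n : ℕ} (hN0 : 0 ≤ N)
    (hN : N ^ 4 = (a ^ 2 + b ^ 2) ^ 2 + (a' ^ 2) ^ 2)
    (ha : (T + 1) * c5 ^ n ≤ a) (hb : T * c5 ^ n ≤ b) (ha' : (T - 1) * c5 ^ n ≤ a') :
    (T + 1 / 5) * c5 ^ (n + 1) ≤ N := by
  have h := low_aux hN0 hN
  have hc := c5_pos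
  have h3 : 0 < c5 ^ 3 := by positivity
  have h1 : c5 ^ 3 * ((T + 1 / 5) * c5 ^ (n + 1)) = (5 * T + 1) * c5 ^ n := by
    calc c5 ^ 3 * ((T + 1 / 5) * c5 ^ (n + 1)) = c5 ^ 4 * ((T + 1 / 5) * c5 ^ n) := by ring
      _ = _ := by rw [c5_pow4]; ring
  have h2 : c5 ^ 3 * ((T + 1 / 5) * c5 ^ (n + 1)) ≤ c5 ^ 3 * N := by
    rw [h1]; nlinarith
  exact le_of_mul_le_mul_left h2 h3

/-- Flipping one coin. -/
def flip {L : ℕ} (c : Fin L) (δ : Fin L → Bool) : Fin L → Bool := Function.update δ c (!δ c)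

lemma flip_invol {L : ℕ} (c : Fin L) : Function.Involutive (flip c) := by
  intro δ
  funext i
  by_cases h : i = c
  · subst h; simp [flip]
  · simp [flip, Function.update_of_ne h]

lemma ext_flip_self {L : ℕ} (c : Fin L) (δ : Fin L → Bool) :
    ext (flip c δ) c = !ext δ c := by
  simp [ext, flip]

lemma ext_flip_ne {L : ℕ} (c : Fin L) (δ : Fin L → Bool) {j : ℕ} (hj : j ≠ c) :
    ext (flip c δ) j = ext δ j := by
  unfold ext
  split_ifs with h
  · have : (⟨j, h⟩ : Fin L) ≠ c := fun e => hj (by rw [← e])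
    simp [flip, Function.update_of_ne this]
  · rfl

/-- Averaging over one coin. -/
lemma sum_flip {L : ℕ} (c : Fin L) (h : (Fin L → Bool) → ℝ → ℝ)
    (hh : ∀ δ s, h (flip c δ) s = h δ s) (σ : ℝ) :
    2 * ∑ δ, h δ (σ * sg (ext δ c)) = ∑ δ, h δ σ + ∑ δ, h δ (-σ) := by
  have h1 : ∑ δ, h δ (σ * sg (ext δ c)) = ∑ δ, h δ (σ * sg (!ext δ c)) := by
    rw [← Equiv.sum_comp (flip_invol c).toPerm]
    refine Finset.sum_congr rfl fun δ _ => ?_
    simp only [Function.Involutive.coe_toPerm]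
    rw [hh, ext_flip_self]
  rw [two_mul]
  nth_rewrite 2 [h1]
  rw [← Finset.sum_add_distrib, ← Finset.sum_add_distrib]
  refine Finset.sum_congr rfl fun δ _ => ?_
  cases ext δ c <;> simp [sg, add_comm]

lemma sum_split {X : Type} [AddCommGroup X] {o c e : ℕ} (hoc : o ≤ c) (hce : c + 1 ≤ e)
    (f : ℕ → X) :
    ∑ j ∈ Ico o e, f j = ∑ j ∈ Ico o c, f j + f c + ∑ j ∈ Ico (c + 1) e, f j := by
  rw [← Finset.sum_Ico_consecutive f hoc (by omega : c ≤ e),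
    Finset.sum_eq_sum_Ico_succ_bot (by omega : c < e), add_assoc]

theorem good_step {X : Type} [NormedAddCommGroup X] [NormedSpace ℝ X] {n : ℕ}
    (hX : Good X n) : Good (Step X) (n + 1) := by
  intro o
  obtain ⟨c, U1, d1, hoc, hU1, hd1, hl1, hu1⟩ := hX o
  obtain ⟨e, U2, d2, hce, hU2, hd2, hl2, hu2⟩ := hX (c + 1)
  let A : ℝ → ℕ → (ℕ → Bool) → X := fun σ j ε =>
    if j < c then d1 j ε else if j = c then σ • U1 ε else 0
  let B : Bool → ℕ → (ℕ → Bool) → X := fun b j ε =>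
    if c < j then (if ε c = b then d2 j ε else 0) else 0
  let V : Bool → (ℕ → Bool) → X := fun b ε => if ε c = b then U2 ε else 0
  have hA : ∀ (σ : ℝ) (s : ℕ → ℝ) (ε : ℕ → Bool) (t : ℝ),
      ∑ j ∈ Ico o e, s j • A σ j ε + t • U1 ε
        = ∑ j ∈ Ico o c, s j • d1 j ε + (t + σ * s c) • U1 ε := by
    intro σ s ε t
    rw [sum_split hoc hce]
    have e1 : ∑ j ∈ Ico o c, s j • A σ j ε = ∑ j ∈ Ico o c, s j • d1 j ε :=
      Finset.sum_congr rfl fun j hj => by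
        have := (Finset.mem_Ico.mp hj).2
        simp [A, this]
    have e2 : ∑ j ∈ Ico (c + 1) e, s j • A σ j ε = 0 :=
      Finset.sum_eq_zero fun j hj => by
        have := (Finset.mem_Ico.mp hj).1
        have h1 : ¬ j < c := by omega
        have h2 : ¬ j = c := by omega
        simp [A, h1, h2]
    have e3 : A σ c ε = σ • U1 ε := by simp [A]
    rw [e1, e2, e3, add_smul, smul_smul, mul_comm (s c)]
    abel
  have hB : ∀ (b : Bool) (s : ℕ → ℝ) (ε : ℕ → Bool) (t : ℝ),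
      ∑ j ∈ Ico o e, s j • B b j ε + t • V b ε
        = if ε c = b then ∑ j ∈ Ico (c + 1) e, s j • d2 j ε + t • U2 ε else 0 := by
    intro b s ε t
    rw [sum_split hoc hce]
    have e1 : ∑ j ∈ Ico o c, s j • B b j ε = 0 :=
      Finset.sum_eq_zero fun j hj => by
        have := (Finset.mem_Ico.mp hj).2
        have h1 : ¬ c < j := by omega
        simp [B, h1]
    have e3 : B b c ε = 0 := by simp [B]
    have e2 : ∑ j ∈ Ico (c + 1) e, s j • B b j ε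
        = ∑ j ∈ Ico (c + 1) e, s j • (if ε c = b then d2 j ε else 0) :=
      Finset.sum_congr rfl fun j hj => by
        have := (Finset.mem_Ico.mp hj).1
        have h1 : c < j := by omega
        simp [B, h1]
    rw [e1, e2, e3]
    by_cases h : ε c = b <;> simp [V, h]
  have hall : ∀ (s : ℕ → ℝ) (ε : ℕ → Bool) (t : ℝ),
      ∑ j ∈ Ico o e, s j • mk4 (A 1 j ε) (B true j ε) (A (-1) j ε) (B false j ε)
          + t • mk4 (U1 ε) (V true ε) (U1 ε) (V false ε)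
        = mk4 (∑ j ∈ Ico o c, s j • d1 j ε + (t + 1 * s c) • U1 ε)
            (if ε c = true then ∑ j ∈ Ico (c + 1) e, s j • d2 j ε + t • U2 ε else 0)
            (∑ j ∈ Ico o c, s j • d1 j ε + (t + (-1) * s c) • U1 ε)
            (if ε c = false then ∑ j ∈ Ico (c + 1) e, s j • d2 j ε + t • U2 ε else 0) := by
    intro s ε t
    simp only [mk4_smul, mk4_sum, mk4_add]
    rw [hA, hA, hB, hB]
  refine ⟨e, fun ε => mk4 (U1 ε) (V true ε) (U1 ε) (V false ε),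
    fun j ε => mk4 (A 1 j ε) (B true j ε) (A (-1) j ε) (B false j ε), by omega, ?_, ?_, ?_, ?_⟩
  · intro ε ε' h
    have h1 : U1 ε = U1 ε' := hU1 ε ε' fun i hi => h i (by omega)
    have h2 : U2 ε = U2 ε' := hU2 ε ε' h
    have h3 : ε c = ε' c := h c (by omega)
    simp only [V, h1, h2, h3]
  · intro j ε ε' h
    have h1 : ∀ σ, A σ j ε = A σ j ε' := by
      intro σ
      simp only [A]
      split_ifs with h1 h2
      · exact hd1 j ε ε' h
      · rw [hU1 ε ε' fun i hi => h i (by omega)]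
      · rfl
    have h2 : ∀ b, B b j ε = B b j ε' := by
      intro b
      simp only [B]
      by_cases hc : c < j
      · simp only [hc, if_true, h c hc, hd2 j ε ε' h]
      · simp only [hc, if_false]
    simp only [h1, h2]
  · intro ε t
    rw [hall (fun j => sg (ε j))]
    have hp := hl1 ε (t + 1)
    have hm := hl1 ε (t - 1)
    have h2 := hl2 ε t
    have e0 : (t + ((n + 1 : ℕ) : ℝ) / 5) = (t + n / 5) + 1 / 5 := by push_cast; ring
    rw [e0]
    cases hc : ε c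
    · refine low_step (a := ‖∑ j ∈ Ico o c, sg (ε j) • d1 j ε + (t + 1) • U1 ε‖)
        (b := ‖∑ j ∈ Ico (c + 1) e, sg (ε j) • d2 j ε + t • U2 ε‖)
        (a' := ‖∑ j ∈ Ico o c, sg (ε j) • d1 j ε + (t - 1) • U1 ε‖) (norm_nonneg _) ?_
        (by convert hp using 2; ring) h2 (by convert hm using 2; ring)
      rw [norm_mk4]
      simp [sg, sub_eq_add_neg, add_comm]
    · refine low_step (a := ‖∑ j ∈ Ico o c, sg (ε j) • d1 j ε + (t + 1) • U1 ε‖)
        (b := ‖∑ j ∈ Ico (c + 1) e, sg (ε j) • d2 j ε + t • U2 ε‖)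
        (a' := ‖∑ j ∈ Ico o c, sg (ε j) • d1 j ε + (t - 1) • U1 ε‖) (norm_nonneg _) ?_
        (by convert hp using 2; ring) h2 (by convert hm using 2; ring)
      rw [norm_mk4]
      simp [sg, sub_eq_add_neg]
  · intro L hL ε t
    have hcL : c < L := by omega
    let h : (Fin L → Bool) → ℝ → ℝ := fun δ s =>
      ‖∑ j ∈ Ico o c, sg (ext δ j) • d1 j ε + (t + s) • U1 ε‖ ^ 4
    let g : (Fin L → Bool) → ℝ := fun δ =>
      ‖∑ j ∈ Ico (c + 1) e, sg (ext δ j) • d2 j ε + t • U2 ε‖ ^ 4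
    have hh : ∀ δ s, h (flip ⟨c, hcL⟩ δ) s = h δ s := by
      intro δ s
      have : ∑ j ∈ Ico o c, sg (ext (flip ⟨c, hcL⟩ δ) j) • d1 j ε
          = ∑ j ∈ Ico o c, sg (ext δ j) • d1 j ε :=
        Finset.sum_congr rfl fun j hj => by
          have := (Finset.mem_Ico.mp hj).2
          rw [ext_flip_ne _ _ (by simp only; omega)]
      simp only [h, this]
    have k1 := sum_flip ⟨c, hcL⟩ h hh 1
    have k2 := sum_flip ⟨c, hcL⟩ h hh (-1)
    have u1 : ∑ δ, h δ 1 ≤ 2 ^ L * (5 ^ n * ((t + 1) ^ 2 + 3 * n) ^ 2) :=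
      hu1 L (by omega) ε (t + 1)
    have u2 : ∑ δ, h δ (-1) ≤ 2 ^ L * (5 ^ n * ((t + -1) ^ 2 + 3 * n) ^ 2) :=
      hu1 L (by omega) ε (t + -1)
    have u3 : ∑ δ, g δ ≤ 2 ^ L * (5 ^ n * (t ^ 2 + 3 * n) ^ 2) := hu2 L hL ε t
    simp only [neg_neg] at k1 k2
    set P := ∑ δ, h δ (1 * sg (ext δ c)) with hP
    set Q := ∑ δ, h δ (-1 * sg (ext δ c)) with hQ
    have hPQ : P = Q := by linarith
    have hmain : ∑ δ : Fin L → Bool, ‖∑ j ∈ Ico o e, sg (ext δ j) •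
          mk4 (A 1 j ε) (B true j ε) (A (-1) j ε) (B false j ε)
          + t • mk4 (U1 ε) (V true ε) (U1 ε) (V false ε)‖ ^ 4
        ≤ 3 * P + 2 * ∑ δ, g δ := by
      cases hc : ε c
      · have : 3 * P + 2 * ∑ δ, g δ = ∑ δ, (h δ (1 * sg (ext δ c))
            + 2 * h δ (-1 * sg (ext δ c)) + 2 * g δ) := by
          rw [Finset.sum_add_distrib, Finset.sum_add_distrib, ← Finset.mul_sum, ← Finset.mul_sum,
            ← hP, ← hQ, ← hPQ]; ring
        rw [this]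
        refine Finset.sum_le_sum fun δ _ => ?_
        rw [hall (fun j => sg (ext δ j)), norm_mk4]
        simp only [hc, h, g, Bool.false_eq_true, if_false, if_true, norm_zero]
        nlinarith [sq_nonneg (‖∑ j ∈ Ico o c, sg (ext δ j) • d1 j ε
            + (t + -1 * sg (ext δ c)) • U1 ε‖ ^ 2
          - ‖∑ j ∈ Ico (c + 1) e, sg (ext δ j) • d2 j ε + t • U2 ε‖ ^ 2)]
      · have : 3 * P + 2 * ∑ δ, g δ = ∑ δ, (2 * h δ (1 * sg (ext δ c))
            + h δ (-1 * sg (ext δ c)) + 2 * g δ) := by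
          rw [Finset.sum_add_distrib, Finset.sum_add_distrib, ← Finset.mul_sum, ← Finset.mul_sum,
            ← hP, ← hQ, ← hPQ]; ring
        rw [this]
        refine Finset.sum_le_sum fun δ _ => ?_
        rw [hall (fun j => sg (ext δ j)), norm_mk4]
        simp only [hc, h, g, Bool.true_eq_false, if_false, if_true, norm_zero]
        nlinarith [sq_nonneg (‖∑ j ∈ Ico o c, sg (ext δ j) • d1 j ε
            + (t + 1 * sg (ext δ c)) • U1 ε‖ ^ 2
          - ‖∑ j ∈ Ico (c + 1) e, sg (ext δ j) • d2 j ε + t • U2 ε‖ ^ 2)]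
    refine le_trans hmain ?_
    have hn : (0 : ℝ) ≤ n := Nat.cast_nonneg n
    have hK : (0 : ℝ) < 2 ^ L * 5 ^ n := by positivity
    have i1 : ((t + 1) ^ 2 + 3 * n) ^ 2 + ((t + -1) ^ 2 + 3 * n) ^ 2
        ≤ 2 * (t ^ 2 + 3 * ((n + 1 : ℕ) : ℝ)) ^ 2 := by
      push_cast; nlinarith [sq_nonneg t]
    have i2 : (t ^ 2 + 3 * n) ^ 2 ≤ (t ^ 2 + 3 * ((n + 1 : ℕ) : ℝ)) ^ 2 := by
      push_cast; nlinarith [sq_nonneg t]
    have j1 := mul_le_mul_of_nonneg_left i1 hK.le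
    have j2 := mul_le_mul_of_nonneg_left i2 hK.le
    rw [pow_succ (5 : ℝ) n]
    nlinarith

lemma good_XS : ∀ n, Good (XS n).T n
  | 0 => good_zero
  | n + 1 => good_step (good_XS n)

end Pool.Agent.H566Z.Dec
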