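import Mathlib

/-!
Iterated sums `l4(l2(l4(l2 ...)))` of two-term sums, and a Clarkson type inequality that
survives the iteration with a fixed constant.
-/

set_option autoImplicit false

namespace Pool.Agent.H566Z.Dec

open scoped ENNReal

instance fact_one_le_four : Fact ((1 : ℝ≥0∞) ≤ 4) := ⟨by norm_num⟩

/-- One level of the iteration. -/
abbrev Step (X : Type) : Type := WithLp 4 (WithLp 2 (X × X) × WithLp 2 (X × X))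

section
variable {X Y : Type} [NormedAddCommGroup X] [NormedAddCommGroup Y]

lemma norm4 (x : WithLp 4 (X × Y)) : ‖x‖ ^ 4 = ‖x.fst‖ ^ 4 + ‖x.snd‖ ^ 4 := by
  have h := WithLp.prod_norm_eq_of_nat (p := 4) 4 (by norm_num) x
  rw [h]
  have h0 : 0 ≤ ‖x.fst‖ ^ 4 + ‖x.snd‖ ^ 4 := by positivity
  rw [← Real.rpow_natCast, ← Real.rpow_mul h0]
  norm_num

/-- The Clarkson type inequality. -/
def Cl (X : Type) [NormedAddCommGroup X] : Prop :=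
  ∀ x y : X, ‖x + y‖ ^ 4 + ‖x - y‖ ^ 4 ≤ 2 * (‖x‖ ^ 2 + 3 * ‖y‖ ^ 2) ^ 2

lemma cl_real : Cl ℝ := by
  intro x y
  simp only [Real.norm_eq_abs]
  have h1 : |x + y| ^ 4 = (x + y) ^ 4 := by rw [← abs_pow]; exact abs_of_nonneg (by positivity)
  have h2 : |x - y| ^ 4 = (x - y) ^ 4 := by rw [← abs_pow]; exact abs_of_nonneg (by positivity)
  rw [h1, h2, sq_abs, sq_abs]
  nlinarith [sq_nonneg (y ^ 2)]

lemma aux2 {A1 A2 B1 B2 C1 C2 : ℝ} (hC1 : 0 ≤ C1) (hC2 : 0 ≤ C2)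
    (h1 : A1 ^ 2 + B1 ^ 2 ≤ 2 * C1 ^ 2) (h2 : A2 ^ 2 + B2 ^ 2 ≤ 2 * C2 ^ 2) :
    (A1 + A2) ^ 2 + (B1 + B2) ^ 2 ≤ 2 * (C1 + C2) ^ 2 := by
  have h3 : (A1 * A2 + B1 * B2) ^ 2 ≤ (2 * C1 * C2) ^ 2 := by
    calc (A1 * A2 + B1 * B2) ^ 2 ≤ (A1 ^ 2 + B1 ^ 2) * (A2 ^ 2 + B2 ^ 2) := by
          nlinarith [sq_nonneg (A1 * B2 - A2 * B1)]
      _ ≤ (2 * C1 ^ 2) * (2 * C2 ^ 2) :=
          mul_le_mul h1 h2 (by positivity) (by positivity)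
      _ = (2 * C1 * C2) ^ 2 := by ring
  have h4 : A1 * A2 + B1 * B2 ≤ 2 * C1 * C2 :=
    le_trans (le_abs_self _) (abs_le_of_sq_le_sq h3 (by positivity) |> fun h => by
      simpa using h)
  nlinarith

lemma cl_two (hX : Cl X) (hY : Cl Y) : Cl (WithLp 2 (X × Y)) := by
  intro x y
  have e1 : ‖x + y‖ ^ 4 = (‖x.fst + y.fst‖ ^ 2 + ‖x.snd + y.snd‖ ^ 2) ^ 2 := by
    rw [show (4 : ℕ) = 2 * 2 from rfl, pow_mul, WithLp.prod_norm_sq_eq_of_L2]; rfl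
  have e2 : ‖x - y‖ ^ 4 = (‖x.fst - y.fst‖ ^ 2 + ‖x.snd - y.snd‖ ^ 2) ^ 2 := by
    rw [show (4 : ℕ) = 2 * 2 from rfl, pow_mul, WithLp.prod_norm_sq_eq_of_L2]; rfl
  rw [e1, e2, WithLp.prod_norm_sq_eq_of_L2 x, WithLp.prod_norm_sq_eq_of_L2 y]
  have h1 := hX x.fst y.fst
  have h2 := hY x.snd y.snd
  have := aux2 (A1 := ‖x.fst + y.fst‖ ^ 2) (A2 := ‖x.snd + y.snd‖ ^ 2)
    (B1 := ‖x.fst - y.fst‖ ^ 2) (B2 := ‖x.snd - y.snd‖ ^ 2)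
    (C1 := ‖x.fst‖ ^ 2 + 3 * ‖y.fst‖ ^ 2) (C2 := ‖x.snd‖ ^ 2 + 3 * ‖y.snd‖ ^ 2)
    (by positivity) (by positivity) (by nlinarith) (by nlinarith)
  nlinarith

lemma aux4 {s1 s2 t1 t2 S T : ℝ} (hS0 : 0 ≤ S) (hT0 : 0 ≤ T)
    (hS : S ^ 2 = s1 ^ 2 + s2 ^ 2) (hT : T ^ 2 = t1 ^ 2 + t2 ^ 2) :
    (s1 + 3 * t1) ^ 2 + (s2 + 3 * t2) ^ 2 ≤ (S + 3 * T) ^ 2 := by
  have h3 : (s1 * t1 + s2 * t2) ^ 2 ≤ (S * T) ^ 2 := by
    rw [mul_pow, hS, hT]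
    nlinarith [sq_nonneg (s1 * t2 - s2 * t1)]
  have h4 : s1 * t1 + s2 * t2 ≤ S * T :=
    le_trans (le_abs_self _) (abs_le_of_sq_le_sq h3 (by positivity) |> fun h => by
      simpa using h)
  nlinarith

lemma cl_four (hX : Cl X) (hY : Cl Y) : Cl (WithLp 4 (X × Y)) := by
  intro x y
  rw [norm4, norm4]
  have h1 := hX x.fst y.fst
  have h2 := hY x.snd y.snd
  have hx := norm4 x
  have hy := norm4 y
  have := aux4 (s1 := ‖x.fst‖ ^ 2) (s2 := ‖x.snd‖ ^ 2) (t1 := ‖y.fst‖ ^ 2) (t2 := ‖y.snd‖ ^ 2)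
    (S := ‖x‖ ^ 2) (T := ‖y‖ ^ 2) (by positivity) (by positivity) (by nlinarith) (by nlinarith)
  simp only [WithLp.add_fst, WithLp.add_snd, WithLp.sub_fst, WithLp.sub_snd]
  linarith

lemma cl_step (hX : Cl X) : Cl (Step X) := cl_four (cl_two hX hX) (cl_two hX hX)

lemma Cl.smooth (hX : Cl X) (x y : X) :
    ‖x + y‖ ^ 2 + ‖x - y‖ ^ 2 ≤ 2 * ‖x‖ ^ 2 + 6 * ‖y‖ ^ 2 := by
  have h := hX x y
  have h3 : (‖x + y‖ ^ 2 + ‖x - y‖ ^ 2) ^ 2 ≤ (2 * ‖x‖ ^ 2 + 6 * ‖y‖ ^ 2) ^ 2 := by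
    nlinarith [sq_nonneg (‖x + y‖ ^ 2 - ‖x - y‖ ^ 2)]
  exact le_trans (le_abs_self _) (abs_le_of_sq_le_sq h3 (by positivity) |> fun h => by
      simpa using h)

/-- An element of `Step X` from its four components. -/
def mk4 (a b a' b' : X) : Step X :=
  WithLp.toLp 4 (WithLp.toLp 2 (a, b), WithLp.toLp 2 (a', b'))

lemma norm_mk4 (a b a' b' : X) :
    ‖mk4 a b a' b'‖ ^ 4 = (‖a‖ ^ 2 + ‖b‖ ^ 2) ^ 2 + (‖a'‖ ^ 2 + ‖b'‖ ^ 2) ^ 2 := by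
  rw [norm4]
  have e1 : ∀ z : WithLp 2 (X × X), ‖z‖ ^ 4 = (‖z.fst‖ ^ 2 + ‖z.snd‖ ^ 2) ^ 2 := by
    intro z
    rw [show (4 : ℕ) = 2 * 2 from rfl, pow_mul, WithLp.prod_norm_sq_eq_of_L2]
  rw [e1, e1]
  rfl

lemma mk4_add (a b a' b' c d c' d' : X) :
    mk4 a b a' b' + mk4 c d c' d' = mk4 (a + c) (b + d) (a' + c') (b' + d') := rfl

lemma mk4_zero : mk4 (0 : X) 0 0 0 = 0 := rfl

lemma mk4_smul [NormedSpace ℝ X] (t : ℝ) (a b a' b' : X) :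
    t • mk4 a b a' b' = mk4 (t • a) (t • b) (t • a') (t • b') := rfl

lemma mk4_sum {ι : Type} (s : Finset ι) (a b a' b' : ι → X) :
    ∑ j ∈ s, mk4 (a j) (b j) (a' j) (b' j)
      = mk4 (∑ j ∈ s, a j) (∑ j ∈ s, b j) (∑ j ∈ s, a' j) (∑ j ∈ s, b' j) := by
  classical
  induction s using Finset.induction_on with
  | empty => simp [mk4_zero]
  | insert j s hj ih => simp only [Finset.sum_insert hj, ih, mk4_add]

end

/-- A bundled real Banach space. -/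
structure BS where
  T : Type
  [nacg : NormedAddCommGroup T]
  [ns : NormedSpace ℝ T]
  [cs : CompleteSpace T]

attribute [instance] BS.nacg BS.ns BS.cs

/-- The iterated spaces. -/
noncomputable def XS : ℕ → BS
  | 0 => ⟨ℝ⟩
  | n + 1 => ⟨Step (XS n).T⟩

lemma cl_XS : ∀ n, Cl (XS n).T
  | 0 => cl_real
  | n + 1 => cl_step (cl_XS n)

/-- The `l2`-sum of all the iterated spaces. -/
abbrev Big : Type := lp (fun n => (XS n).T) 2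

lemma big_hasSum (x : Big) : HasSum (fun n => ‖x n‖ ^ 2) (‖x‖ ^ 2) := by
  have h := lp.hasSum_norm (p := 2) (by norm_num) x
  simpa using h

lemma big_smooth (x y : Big) :
    ‖x + y‖ ^ 2 + ‖x - y‖ ^ 2 ≤ 2 * ‖x‖ ^ 2 + 6 * ‖y‖ ^ 2 := by
  have h1 := (big_hasSum (x + y)).add (big_hasSum (x - y))
  have h2 := ((big_hasSum x).mul_left 2).add ((big_hasSum y).mul_left 6)
  refine hasSum_le (fun n => ?_) h1 h2
  have := (cl_XS n).smooth (x n) (y n)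
  simpa [lp.coeFn_add, lp.coeFn_sub] using this

end Pool.Agent.H566Z.Dec
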