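import Pool.Agent.H304Z.NH.Spec4

set_option autoImplicit false
set_option linter.unusedSectionVars false
set_option linter.unusedVariables false

/-!
Translation between the definitions, and sofic groups are hyperlinear.
-/

namespace Pool.Agent.H566Z.NHSof

open Matrix Finset Pool.Agent.H304Z Pool.Agent.H304Z.NH

/-- permutation matrices -/
def pm {n : ℕ} (σ : Equiv.Perm (Fin n)) : Matrix (Fin n) (Fin n) ℂ :=
  Matrix.of fun i j => if i = σ j then 1 else 0

theorem pm_one {n : ℕ} : pm (1 : Equiv.Perm (Fin n)) = 1 := by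
  ext i j
  simp [pm, Matrix.one_apply]

theorem pm_mul {n : ℕ} (σ τ : Equiv.Perm (Fin n)) : pm (σ * τ) = pm σ * pm τ := by
  ext i j
  simp [pm, Matrix.mul_apply]

theorem pm_star {n : ℕ} (σ : Equiv.Perm (Fin n)) : (pm σ)ᴴ = pm σ⁻¹ := by
  ext i j
  simp only [pm, conjTranspose_apply, of_apply]
  by_cases h : j = σ i
  · have h' : i = σ⁻¹ j := by rw [h]; simp
    rw [if_pos h, if_pos h']; simp
  · have h' : ¬ i = σ⁻¹ j := fun e => h (by rw [e]; simp)
    rw [if_neg h, if_neg h']; simp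

theorem pm_mem {n : ℕ} (σ : Equiv.Perm (Fin n)) : pm σ ∈ Matrix.unitaryGroup (Fin n) ℂ := by
  rw [Matrix.mem_unitaryGroup_iff, star_eq_conjTranspose, pm_star, ← pm_mul, mul_inv_cancel, pm_one]

theorem trace_pm {n : ℕ} (σ τ : Equiv.Perm (Fin n)) :
    (trace ((pm σ - pm τ)ᴴ * (pm σ - pm τ))).re =
      2 * ((Finset.univ.filter fun i => σ i ≠ τ i).card : ℝ) := by
  have h : ∀ j, ((pm σ - pm τ)ᴴ * (pm σ - pm τ)) j j = if σ j ≠ τ j then 2 else 0 := by
    intro j
    rw [Matrix.mul_apply]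
    by_cases hj : σ j = τ j
    · simp [pm, hj]
    · have e : ∀ i, (pm σ - pm τ)ᴴ j i * (pm σ - pm τ) i j =
          (if i = σ j then 1 else 0) + (if i = τ j then 1 else 0) := by
        intro i
        simp only [pm, conjTranspose_apply, Matrix.sub_apply, of_apply]
        by_cases h1 : i = σ j
        · have h2 : ¬ i = τ j := fun e => hj (h1.symm.trans e)
          rw [if_pos h1, if_neg h2]; simp
        · by_cases h2 : i = τ j
          · rw [if_neg h1, if_pos h2]; simp
          · rw [if_neg h1, if_neg h2]; simp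
      simp only [e]
      rw [Finset.sum_add_distrib, if_pos hj]
      simp only [Finset.sum_ite_eq', Finset.mem_univ, if_true]
      norm_num
  have e : trace ((pm σ - pm τ)ᴴ * (pm σ - pm τ)) =
      ((2 * ((Finset.univ.filter fun i => σ i ≠ τ i).card : ℝ) : ℝ) : ℂ) := by
    rw [trace]
    simp only [diag_apply, h]
    rw [← Finset.sum_filter, Finset.sum_const, nsmul_eq_mul]
    push_cast
    ring
  rw [e, Complex.ofReal_re]

theorem hs_pm {n : ℕ} (σ τ : Equiv.Perm (Fin n)) :
    NHDefs.hsNorm (pm σ - pm τ) = Real.sqrt (2 * NHDefs.hamming σ τ) := by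
  rw [NHDefs.hsNorm, NHDefs.hamming, trace_pm]
  congr 1
  ring

theorem hs_eq {n : ℕ} (X : Matrix (Fin n) (Fin n) ℂ) :
    Real.sqrt (nsq X / n) = NHDefs.hsNorm X := by
  rw [NHDefs.hsNorm, nsq, tr]
  congr 1
  ring

theorem sof : S_SOF := by
  classical
  intro G _
  constructor
  · intro h A h1 ε hε
    obtain ⟨n, hn, φ, p1, p2, p3⟩ := h A h1 ε hε
    refine ⟨n, hn, fun g => if hg : g ∈ A then φ ⟨g, hg⟩ else 1, ?_, ?_, ?_⟩
    · simp only [dif_pos h1]
      exact p1
    · intro a ha b hb hab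
      simp only [dif_pos ha, dif_pos hb, dif_pos hab]
      rw [hs_eq]
      exact p2 ⟨a, ha⟩ ⟨b, hb⟩ hab
    · intro a ha hne
      simp only [dif_pos ha]
      rw [hs_eq]
      exact p3 ⟨a, ha⟩ hne
  · intro h A h1 ε hε
    obtain ⟨n, hn, φ, p1, p2, p3⟩ := h A h1 (min (1 / 2) (ε ^ 2 / 2))
      (lt_min (by norm_num) (by positivity))
    refine ⟨n, hn, fun a => ⟨pm (φ a), pm_mem _⟩, ?_, ?_, ?_⟩
    · apply Subtype.ext
      simp only [p1]
      exact pm_one
    · intro a b hab
      have h2 := (p2 a b hab).trans_le (min_le_right _ _)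
      show NHDefs.hsNorm (pm (φ ⟨a.1 * b.1, hab⟩) - pm (φ a) * pm (φ b)) < ε
      rw [← pm_mul, hs_pm, Real.sqrt_lt' hε]
      linarith
    · intro a hne
      have h2 := p3 a hne
      have h3 := min_le_left (1 / 2 : ℝ) (ε ^ 2 / 2)
      show 1 ≤ NHDefs.hsNorm (pm (φ a) - 1)
      rw [← pm_one, hs_pm]
      apply Real.le_sqrt_of_sq_le
      linarith

end Pool.Agent.H566Z.NHSof
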