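import Mathlib

/-! Transfer matrices of finite words: algebra, Floquet facts. -/

set_option autoImplicit false

namespace Pool.Agent.H566Z.St

open Matrix Polynomial

abbrev M2 (R : Type) := Matrix (Fin 2) (Fin 2) R

section gen
variable {R : Type} [CommRing R]

/-- one step transfer matrix -/
def AA (e : R) : M2 R := !![e, -1; 1, 0]

lemma det_AA (e : R) : (AA e).det = 1 := by simp [AA, Matrix.det_fin_two]

variable [Algebra ℝ R]

/-- transfer matrix of a word -/
def tr (E : R) : List ℝ → M2 R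
  | [] => 1
  | x :: w => tr E w * AA (E - algebraMap ℝ R x)

lemma tr_nil (E : R) : tr E [] = 1 := rfl
lemma tr_cons (E : R) (x : ℝ) (w : List ℝ) :
    tr E (x :: w) = tr E w * AA (E - algebraMap ℝ R x) := rfl

lemma tr_append (E : R) (u w : List ℝ) : tr E (u ++ w) = tr E w * tr E u := by
  induction u with
  | nil => simp [tr_nil]
  | cons x u ih => rw [List.cons_append, tr_cons, tr_cons, ih, mul_assoc]

lemma det_tr (E : R) (w : List ℝ) : (tr E w).det = 1 := by
  induction w with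
  | nil => simp [tr_nil]
  | cons x w ih => rw [tr_cons, Matrix.det_mul, ih, det_AA, one_mul]

lemma det_tr' (E : R) (w : List ℝ) :
    tr E w 0 0 * tr E w 1 1 - tr E w 0 1 * tr E w 1 0 = 1 := by
  rw [← Matrix.det_fin_two, det_tr]

lemma tr00 (E : R) (x : ℝ) (w : List ℝ) :
    tr E (x :: w) 0 0 = tr E w 0 0 * (E - algebraMap ℝ R x) + tr E w 0 1 := by
  simp [tr_cons, AA, Matrix.mul_apply, Fin.sum_univ_two]
lemma tr01 (E : R) (x : ℝ) (w : List ℝ) : tr E (x :: w) 0 1 = - tr E w 0 0 := by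
  simp [tr_cons, AA, Matrix.mul_apply, Fin.sum_univ_two]
lemma tr10 (E : R) (x : ℝ) (w : List ℝ) :
    tr E (x :: w) 1 0 = tr E w 1 0 * (E - algebraMap ℝ R x) + tr E w 1 1 := by
  simp [tr_cons, AA, Matrix.mul_apply, Fin.sum_univ_two]
lemma tr11 (E : R) (x : ℝ) (w : List ℝ) : tr E (x :: w) 1 1 = - tr E w 1 0 := by
  simp [tr_cons, AA, Matrix.mul_apply, Fin.sum_univ_two]

/-- powers of a word -/
def pw (w : List ℝ) : ℕ → List ℝ
  | 0 => []
  | j + 1 => pw w j ++ w

lemma tr_pw (E : R) (w : List ℝ) (j : ℕ) : tr E (pw w j) = tr E w ^ j := by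
  induction j with
  | zero => simp [pw, tr_nil]
  | succ j ih => rw [pw, tr_append, ih, pow_succ']

lemma length_pw (w : List ℝ) (j : ℕ) : (pw w j).length = j * w.length := by
  induction j with
  | zero => simp [pw]
  | succ j ih => rw [pw, List.length_append, ih]; ring

lemma tr_map {S : Type} [CommRing S] [Algebra ℝ S] (φ : R →ₐ[ℝ] S) (E : R) (w : List ℝ) :
    ∀ i j, φ (tr E w i j) = tr (φ E) w i j := by
  induction w with
  | nil =>
    intro i j
    fin_cases i <;> fin_cases j <;> simp [tr_nil]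
  | cons x w ih =>
    intro i j
    fin_cases i <;> fin_cases j
    · show φ (tr E (x :: w) 0 0) = tr (φ E) (x :: w) 0 0
      rw [tr00, tr00, map_add, map_mul, map_sub, ih, ih, AlgHom.commutes]
    · show φ (tr E (x :: w) 0 1) = tr (φ E) (x :: w) 0 1
      rw [tr01, tr01, map_neg, ih]
    · show φ (tr E (x :: w) 1 0) = tr (φ E) (x :: w) 1 0
      rw [tr10, tr10, map_add, map_mul, map_sub, ih, ih, AlgHom.commutes]
    · show φ (tr E (x :: w) 1 1) = tr (φ E) (x :: w) 1 1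
      rw [tr11, tr11, map_neg, ih]

end gen

/-- the discriminant polynomial -/
noncomputable def dp (w : List ℝ) : ℝ[X] := tr (X : ℝ[X]) w 0 0 + tr (X : ℝ[X]) w 1 1

lemma aeval_tr {S : Type} [CommRing S] [Algebra ℝ S] (E : S) (w : List ℝ) (i j : Fin 2) :
    aeval E (tr (X : ℝ[X]) w i j) = tr E w i j := by
  rw [tr_map (aeval E) X w i j, aeval_X]

lemma eval_tr (E : ℝ) (w : List ℝ) (i j : Fin 2) :
    (tr (X : ℝ[X]) w i j).eval E = tr E w i j := by
  rw [← aeval_tr E w i j, coe_aeval_eq_eval]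

lemma eval_dp (E : ℝ) (w : List ℝ) : (dp w).eval E = tr E w 0 0 + tr E w 1 1 := by
  rw [dp, eval_add, eval_tr, eval_tr]

lemma aeval_dp (z : ℂ) (w : List ℝ) : aeval z (dp w) = tr z w 0 0 + tr z w 1 1 := by
  rw [dp, map_add, aeval_tr, aeval_tr]

lemma deg_tr (w : List ℝ) : (tr (X : ℝ[X]) w 0 0).Monic ∧
    (tr (X : ℝ[X]) w 0 0).degree = w.length ∧ (tr (X : ℝ[X]) w 0 1).degree < w.length ∧
    (tr (X : ℝ[X]) w 1 0).degree < w.length ∧ (tr (X : ℝ[X]) w 1 1).degree ≤ w.length ∧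
    (w ≠ [] → (tr (X : ℝ[X]) w 1 1).degree < w.length) := by
  induction w with
  | nil => simp [tr_nil]
  | cons x w ih =>
    obtain ⟨h1, h2, h3, h4, h5, -⟩ := ih
    have hx : (X - algebraMap ℝ ℝ[X] x : ℝ[X]) = X - C x := rfl
    have hm : (tr (X : ℝ[X]) w 0 0 * (X - C x)).Monic := h1.mul (monic_X_sub_C x)
    have hd : (tr (X : ℝ[X]) w 0 0 * (X - C x)).degree = ((w.length + 1 : ℕ) : WithBot ℕ) := by
      rw [degree_mul, h2, degree_X_sub_C]; push_cast; rfl
    have hlt : ((w.length : ℕ) : WithBot ℕ) < ((w.length + 1 : ℕ) : WithBot ℕ) := by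
      exact_mod_cast Nat.lt_succ_self _
    have h3' : (tr (X : ℝ[X]) w 0 1).degree < (tr (X : ℝ[X]) w 0 0 * (X - C x)).degree := by
      rw [hd]; exact h3.trans hlt
    rw [tr00, tr01, tr10, tr11, hx, List.length_cons]
    refine ⟨hm.add_of_left h3', ?_, ?_, ?_, ?_, fun _ => ?_⟩
    · rw [degree_add_eq_left_of_degree_lt h3', hd]
    · rw [degree_neg, h2]; exact hlt
    · refine lt_of_le_of_lt (degree_add_le _ _) (max_lt ?_ (lt_of_le_of_lt h5 hlt))
      rw [degree_mul, degree_X_sub_C]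
      have : ((w.length + 1 : ℕ) : WithBot ℕ) = (w.length : WithBot ℕ) + 1 := by push_cast; rfl
      rw [this]
      exact WithBot.add_lt_add_right (by simp) h4
    · rw [degree_neg]; exact (h4.trans hlt).le
    · rw [degree_neg]; exact h4.trans hlt

lemma dp_monic {w : List ℝ} (hw : w ≠ []) : (dp w).Monic ∧ (dp w).natDegree = w.length := by
  obtain ⟨h1, h2, -, -, -, h6⟩ := deg_tr w
  have h7 : (tr (X : ℝ[X]) w 1 1).degree < (tr (X : ℝ[X]) w 0 0).degree := by
    rw [h2]; exact h6 hw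
  refine ⟨h1.add_of_left h7, ?_⟩
  apply natDegree_eq_of_degree_eq_some
  rw [dp, degree_add_eq_left_of_degree_lt h7, h2]

/-- derivative of the transfer matrix -/
lemma deriv_tr (E : ℝ) (w : List ℝ) : ∃ g11 g12 g22 : ℝ,
    (derivative (tr (X : ℝ[X]) w 0 0)).eval E = tr E w 0 0 * g12 - tr E w 0 1 * g11 ∧
    (derivative (tr (X : ℝ[X]) w 0 1)).eval E = tr E w 0 0 * g22 - tr E w 0 1 * g12 ∧
    (derivative (tr (X : ℝ[X]) w 1 0)).eval E = tr E w 1 0 * g12 - tr E w 1 1 * g11 ∧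
    (derivative (tr (X : ℝ[X]) w 1 1)).eval E = tr E w 1 0 * g22 - tr E w 1 1 * g12 ∧
    (∀ s t : ℝ, 0 ≤ g11 * s ^ 2 + 2 * g12 * s * t + g22 * t ^ 2) ∧
    0 ≤ g11 * g22 - g12 ^ 2 ∧ (1 ≤ w.length → 1 ≤ g11) ∧
    (2 ≤ w.length → 1 ≤ g11 * g22 - g12 ^ 2) := by
  induction w with
  | nil =>
    refine ⟨0, 0, 0, ?_, ?_, ?_, ?_, ?_, ?_, ?_, ?_⟩ <;> simp [tr_nil]
  | cons x w ih =>
    obtain ⟨g11, g12, g22, h1, h2, h3, h4, h5, h6, h7, h8⟩ := ih
    have hx : (X - algebraMap ℝ ℝ[X] x : ℝ[X]) = X - C x := rfl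
    have hx' : algebraMap ℝ ℝ x = x := rfl
    have hg11 : 0 ≤ g11 := by have := h5 1 0; nlinarith
    refine ⟨g11 * (E - x) ^ 2 + 2 * g12 * (E - x) + g22 + 1, -(g11 * (E - x) + g12), g11,
      ?_, ?_, ?_, ?_, ?_, ?_, ?_, ?_⟩
    · rw [tr00, tr00, tr01, hx, hx']
      simp only [derivative_add, derivative_mul, derivative_sub, derivative_X, derivative_C,
        eval_add, eval_mul, eval_sub, eval_X, eval_C, eval_one, eval_zero, h1, h2, eval_tr]
      ring
    · rw [tr01, tr00, tr01, hx']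
      simp only [derivative_neg, eval_neg, h1]
      ring
    · rw [tr10, tr10, tr11, hx, hx']
      simp only [derivative_add, derivative_mul, derivative_sub, derivative_X, derivative_C,
        eval_add, eval_mul, eval_sub, eval_X, eval_C, eval_one, eval_zero, h3, h4, eval_tr]
      ring
    · rw [tr11, tr10, tr11, hx']
      simp only [derivative_neg, eval_neg, h3]
      ring
    · intro s t
      have := h5 ((E - x) * s - t) s
      nlinarith [sq_nonneg s]
    · nlinarith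
    · intro _
      have := h5 (E - x) 1
      nlinarith
    · intro hl
      have := h7 (by simpa using hl)
      nlinarith

/-- a critical point of the discriminant inside the bands forces a scalar monodromy -/
lemma crit {w : List ℝ} (hw : 2 ≤ w.length) {E : ℝ} (h2 : ((dp w).eval E) ^ 2 ≤ 4)
    (h0 : (derivative (dp w)).eval E = 0) :
    tr E w 0 1 = 0 ∧ tr E w 1 0 = 0 ∧ tr E w 0 0 = tr E w 1 1 := by
  obtain ⟨g11, g12, g22, h1, -, -, h4, -, -, h7, h8⟩ := deriv_tr E w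
  have h7 := h7 (by omega)
  have h8 := h8 hw
  rw [dp, derivative_add, eval_add, h1, h4] at h0
  rw [eval_dp] at h2
  have hd := det_tr' E w
  set a := tr E w 0 0
  set b := tr E w 0 1
  set c := tr E w 1 0
  set d := tr E w 1 1
  have k1 : (a - d) ^ 2 + 4 * (b * c) ≤ 0 := by nlinarith
  have k2 : b * g11 - c * g22 = (a - d) * g12 := by linarith
  have k3 : (b * g11 - c * g22) ^ 2 ≤ -4 * (b * c) * g12 ^ 2 := by
    rw [k2, mul_pow]
    exact mul_le_mul_of_nonneg_right (by linarith) (sq_nonneg _)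
  have k4 : 0 ≤ -(b * c) := by nlinarith [sq_nonneg (a - d)]
  have k5 : (b * g11 + c * g22) ^ 2 + 4 * (-(b * c)) * (g11 * g22 - g12 ^ 2) ≤ 0 := by nlinarith
  have k6 : -(b * c) ≤ (-(b * c)) * (g11 * g22 - g12 ^ 2) := by nlinarith
  have k7 : b * c = 0 := by nlinarith [sq_nonneg (b * g11 + c * g22)]
  have k8 : a - d = 0 := by
    have : (a - d) ^ 2 ≤ 0 := by linarith
    exact pow_eq_zero_iff (two_ne_zero) |>.1 (le_antisymm this (sq_nonneg _))
  have k9 : b * g11 + c * g22 = 0 := by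
    have : (b * g11 + c * g22) ^ 2 ≤ 0 := by rw [k7] at k5; linarith
    exact pow_eq_zero_iff (two_ne_zero) |>.1 (le_antisymm this (sq_nonneg _))
  rw [k8] at k2
  have hb : b * g11 = 0 := by linarith
  have hc : c * g22 = 0 := by linarith
  have hg22 : g22 ≠ 0 := by
    intro h; rw [h] at h8; nlinarith [sq_nonneg g12]
  refine ⟨?_, ?_, by linarith⟩
  · rcases mul_eq_zero.1 hb with h | h
    · exact h
    · linarith
  · rcases mul_eq_zero.1 hc with h | h
    · exact h
    · exact absurd h hg22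

/-- eigenvectors of a unimodular complex matrix -/
lemma eigvec (M : M2 ℂ) (hd : M 0 0 * M 1 1 - M 0 1 * M 1 0 = 1) (μ : ℂ)
    (hμ : μ ^ 2 - (M 0 0 + M 1 1) * μ + 1 = 0) :
    ∃ s t : ℂ, (s ≠ 0 ∨ t ≠ 0) ∧ M 0 0 * s + M 0 1 * t = μ * s ∧ M 1 0 * s + M 1 1 * t = μ * t := by
  by_cases h1 : M 0 1 ≠ 0 ∨ μ - M 0 0 ≠ 0
  · exact ⟨M 0 1, μ - M 0 0, h1, by ring, by linear_combination -hd - hμ⟩
  · push Not at h1
    by_cases h2 : μ - M 1 1 ≠ 0 ∨ M 1 0 ≠ 0
    · exact ⟨μ - M 1 1, M 1 0, h2, by linear_combination -hd - hμ, by ring⟩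
    · push Not at h2
      refine ⟨1, 0, Or.inl one_ne_zero, ?_, ?_⟩
      · linear_combination -h1.2
      · linear_combination h2.2

lemma omega_tr (z : ℂ) (w : List ℝ) : ∀ s t : ℂ, ∃ N : ℝ, 0 ≤ N ∧
    ((tr z w 0 0 * s + tr z w 0 1 * t) * (starRingEnd ℂ) (tr z w 1 0 * s + tr z w 1 1 * t)).im
      = (s * (starRingEnd ℂ) t).im + z.im * N ∧
    (1 ≤ w.length → Complex.normSq s ≤ N) ∧ (2 ≤ w.length → N = 0 → s = 0 ∧ t = 0) := by
  induction w with
  | nil =>
    intro s t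
    refine ⟨0, le_rfl, by simp [tr_nil], by simp, by simp⟩
  | cons x w ih =>
    intro s t
    obtain ⟨N, h0, h1, h2, -⟩ := ih ((z - x) * s - t) s
    have hx : algebraMap ℝ ℂ x = (x : ℂ) := rfl
    have hs := Complex.normSq_nonneg s
    refine ⟨N + Complex.normSq s, by linarith, ?_, fun _ => by linarith, fun hl hN => ?_⟩
    · rw [tr00, tr01, tr10, tr11, hx]
      have e1 : (tr z w 0 0 * (z - x) + tr z w 0 1) * s + -tr z w 0 0 * t =
          tr z w 0 0 * ((z - x) * s - t) + tr z w 0 1 * s := by ring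
      have e2 : (tr z w 1 0 * (z - x) + tr z w 1 1) * s + -tr z w 1 0 * t =
          tr z w 1 0 * ((z - x) * s - t) + tr z w 1 1 * s := by ring
      rw [e1, e2, h1]
      simp [Complex.normSq_apply]
      ring
    · have h3 := h2 (by simpa using hl)
      have h4 := Complex.normSq_nonneg ((z - x) * s - t)
      have hs0 : s = 0 := Complex.normSq_eq_zero.1 (by linarith)
      have ht0 : (z - x) * s - t = 0 := Complex.normSq_eq_zero.1 (by linarith)
      refine ⟨hs0, ?_⟩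
      rw [hs0] at ht0
      simpa using ht0

lemma root_real {w : List ℝ} (hw : 2 ≤ w.length) {z : ℂ} (hz : aeval z (dp w) = 0) :
    z.im = 0 := by
  rw [aeval_dp] at hz
  obtain ⟨s, t, h0, h1, h2⟩ := eigvec (tr z w) (det_tr' z w) Complex.I (by rw [hz]; simp)
  obtain ⟨N, -, h3, -, h5⟩ := omega_tr z w s t
  rw [h1, h2] at h3
  have h6 : (Complex.I * s * (starRingEnd ℂ) (Complex.I * t)).im = (s * (starRingEnd ℂ) t).im := by
    simp
  rw [h6] at h3
  by_contra hne
  have hN : N = 0 := by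
    have : z.im * N = 0 := by linarith
    rcases mul_eq_zero.1 this with h | h
    · exact absurd h hne
    · exact h
  obtain ⟨a, b⟩ := h5 hw hN
  rcases h0 with h | h
  · exact h a
  · exact h b

/-- the number of real roots of the discriminant -/
lemma card_roots_dp {w : List ℝ} (hw : 2 ≤ w.length)
    (hns : ∀ E : ℝ, ¬ (tr E w 0 1 = 0 ∧ tr E w 1 0 = 0 ∧ tr E w 0 0 = tr E w 1 1)) :
    (dp w).roots.toFinset.card = w.length := by
  have hne : w ≠ [] := by rintro rfl; simp at hw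
  obtain ⟨hm, hdeg⟩ := dp_monic hne
  have hsp : (dp w).Splits := by
    apply Polynomial.Splits.of_splits_map (algebraMap ℝ ℂ) (IsAlgClosed.splits _)
    intro z hz
    have hz' : aeval z (dp w) = 0 := by
      rw [mem_roots (Polynomial.map_ne_zero hm.ne_zero), IsRoot.def, eval_map_algebraMap] at hz
      exact hz
    exact ⟨z.re, by
      apply Complex.ext <;> simp [root_real hw hz']⟩
  have hnd : (dp w).roots.Nodup := by
    rw [Multiset.nodup_iff_count_le_one]
    intro E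
    rw [count_roots]
    by_contra hcon
    push Not at hcon
    have h := (one_lt_rootMultiplicity_iff_isRoot hm.ne_zero).1 hcon
    apply hns E
    apply crit hw
    · rw [h.1.eq_zero]; norm_num
    · exact h.2.eq_zero
  rw [Multiset.toFinset_card_of_nodup hnd, ← hsp.natDegree_eq_card_roots, hdeg]

lemma between_roots {w : List ℝ} (hw : 2 ≤ w.length)
    (hns : ∀ E : ℝ, ¬ (tr E w 0 1 = 0 ∧ tr E w 1 0 = 0 ∧ tr E w 0 0 = tr E w 1 1))
    {e e' : ℝ} (h : e < e') (h1 : (dp w).eval e = 0) (h2 : (dp w).eval e' = 0) :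
    ∃ ξ ∈ Set.Ioo e e', 4 < ((dp w).eval ξ) ^ 2 := by
  obtain ⟨ξ, hξ, h3⟩ := exists_deriv_eq_zero (f := fun x => (dp w).eval x) h
    (dp w).continuous.continuousOn (by rw [h1, h2])
  rw [Polynomial.deriv] at h3
  refine ⟨ξ, hξ, ?_⟩
  by_contra hcon
  push Not at hcon
  exact hns ξ (crit hw hcon h3)

/-- commutator determinant -/
def JJ (M D : M2 ℝ) : ℝ := (M * D - D * M).det

lemma JJ_symm (M D : M2 ℝ) : JJ M D = JJ D M := by
  unfold JJ
  rw [← neg_sub, Matrix.det_neg]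
  simp

lemma JJ_mul_pow (M D : M2 ℝ) (hM : M.det = 1) (j : ℕ) : JJ M (D * M ^ j) = JJ M D := by
  unfold JJ
  have : M * (D * M ^ j) - D * M ^ j * M = (M * D - D * M) * M ^ j := by
    rw [mul_assoc D, ← pow_succ, pow_succ', sub_mul, mul_assoc, mul_assoc]
  rw [this, Matrix.det_mul, Matrix.det_pow, hM, one_pow, mul_one]

lemma JJ_step (M D : M2 ℝ) (hM : M.det = 1) (hD : D.det = 1) (j : ℕ) :
    JJ (D * M ^ j) (D * M ^ (j + 1)) = JJ M D := by
  rw [← JJ_mul_pow M D hM j, JJ_symm M]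
  set N := D * M ^ j with hN
  have h1 : D * M ^ (j + 1) = N * M := by rw [hN, pow_succ, mul_assoc]
  have h2 : N.det = 1 := by rw [hN, Matrix.det_mul, Matrix.det_pow, hM, hD]; simp
  rw [h1]
  unfold JJ
  have : N * (N * M) - N * M * N = N * (N * M - M * N) := by
    rw [mul_sub, mul_assoc N M N]
  rw [this, Matrix.det_mul, h2, one_mul]

lemma JJ_base (E lam : ℝ) : JJ (tr E [0]) (tr E [lam]) = -lam ^ 2 := by
  unfold JJ
  simp [tr_cons, tr_nil, AA, Matrix.det_fin_two]
  ring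

lemma not_scalar {M D : M2 ℝ} (h : JJ M D ≠ 0) : ¬ (M 0 1 = 0 ∧ M 1 0 = 0 ∧ M 0 0 = M 1 1) := by
  rintro ⟨h1, h2, h3⟩
  apply h
  unfold JJ
  simp [Matrix.det_fin_two, Matrix.mul_apply, Fin.sum_univ_two, h1, h2, h3]
  ring

end Pool.Agent.H566Z.St
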