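import Mathlib
import Pool.Agent.H566Z.St1

/-! Quadratic Lyapunov forms for block transfer matrices. -/

set_option autoImplicit false

namespace Pool.Agent.H566Z.St

open Matrix Filter Topology

/-- quadratic form of a matrix -/
def qf (P : M2 ℝ) (s t : ℝ) : ℝ := P 0 0 * s ^ 2 + (P 0 1 + P 1 0) * s * t + P 1 1 * t ^ 2

def Pos (P : M2 ℝ) : Prop := ∀ s t : ℝ, (s ≠ 0 ∨ t ≠ 0) → 0 < qf P s t

lemma qf_conj (P T : M2 ℝ) (s t : ℝ) :
    qf (Tᵀ * P * T) s t = qf P (T 0 0 * s + T 0 1 * t) (T 1 0 * s + T 1 1 * t) := by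
  simp [qf, Matrix.mul_apply, Fin.sum_univ_two]
  ring

lemma qf_sub (P Q : M2 ℝ) (s t : ℝ) : qf (P - Q) s t = qf P s t - qf Q s t := by
  simp [qf]; ring

lemma qf_add (P Q : M2 ℝ) (s t : ℝ) : qf (P + Q) s t = qf P s t + qf Q s t := by
  simp [qf]; ring

lemma qf_smul_one (k s t : ℝ) : qf (k • (1 : M2 ℝ)) s t = k * (s ^ 2 + t ^ 2) := by
  simp [qf]; ring

lemma pos_iff (P : M2 ℝ) :
    Pos P ↔ 0 < P 0 0 ∧ 0 < 4 * (P 0 0 * P 1 1) - (P 0 1 + P 1 0) ^ 2 := by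
  constructor
  · intro h
    have h1 := h 1 0 (Or.inl one_ne_zero)
    have h1' : 0 < P 0 0 := by simpa [qf] using h1
    refine ⟨h1', ?_⟩
    have h2 := h (-(P 0 1 + P 1 0)) (2 * P 0 0) (Or.inr (by positivity))
    have : qf P (-(P 0 1 + P 1 0)) (2 * P 0 0) =
        P 0 0 * (4 * (P 0 0 * P 1 1) - (P 0 1 + P 1 0) ^ 2) := by unfold qf; ring
    rw [this] at h2
    exact (mul_pos_iff_of_pos_left h1').1 h2
  · rintro ⟨h1, h2⟩ s t hst
    have : 4 * P 0 0 * qf P s t = (2 * P 0 0 * s + (P 0 1 + P 1 0) * t) ^ 2 +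
        (4 * (P 0 0 * P 1 1) - (P 0 1 + P 1 0) ^ 2) * t ^ 2 := by unfold qf; ring
    have h3 : 0 < 4 * P 0 0 * qf P s t := by
      rw [this]
      by_cases ht : t = 0
      · have hs : s ≠ 0 := by tauto
        rw [ht]
        have : 0 < (2 * P 0 0 * s + (P 0 1 + P 1 0) * 0) ^ 2 := by
          have : 2 * P 0 0 * s + (P 0 1 + P 1 0) * 0 ≠ 0 := by simp [hs, h1.ne']
          positivity
        linarith
      · have : 0 < (4 * (P 0 0 * P 1 1) - (P 0 1 + P 1 0) ^ 2) * t ^ 2 := by positivity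
        nlinarith [sq_nonneg (2 * P 0 0 * s + (P 0 1 + P 1 0) * t)]
    exact (mul_pos_iff_of_pos_left (by linarith : 0 < 4 * P 0 0)).1 h3

lemma Pos.lower {P : M2 ℝ} (h : Pos P) : ∃ c, 0 < c ∧ ∀ s t, c * (s ^ 2 + t ^ 2) ≤ qf P s t := by
  obtain ⟨h1, h2⟩ := (pos_iff P).1 h
  have h3 : 0 < P 1 1 := by nlinarith [sq_nonneg (P 0 1 + P 1 0)]
  set a := P 0 0
  set d := P 1 1
  set b := P 0 1 + P 1 0
  have hs : 0 < a + d := by linarith
  refine ⟨(4 * (a * d) - b ^ 2) / (4 * (a + d)), by positivity, fun s t => ?_⟩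
  rw [div_mul_eq_mul_div, div_le_iff₀ (by positivity)]
  have : qf P s t = a * s ^ 2 + b * s * t + d * t ^ 2 := rfl
  rw [this]
  nlinarith [sq_nonneg (2 * a * s + b * t), sq_nonneg (b * s + 2 * d * t)]

/-- the form `Q` increases strictly along `T` -/
def Inc (Q T : M2 ℝ) : Prop := Pos (Tᵀ * Q * T - Q)

lemma ne_zero_map {T : M2 ℝ} (hT : T.det = 1) {s t : ℝ} (h : s ≠ 0 ∨ t ≠ 0) :
    T 0 0 * s + T 0 1 * t ≠ 0 ∨ T 1 0 * s + T 1 1 * t ≠ 0 := by
  rw [Matrix.det_fin_two] at hT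
  by_contra hcon
  push Not at hcon
  obtain ⟨h1, h2⟩ := hcon
  have hs : s = 0 := by linear_combination T 1 1 * h1 - T 0 1 * h2 - s * hT
  have ht : t = 0 := by linear_combination T 0 0 * h2 - T 1 0 * h1 - t * hT
  tauto

lemma Inc.mul {Q T M : M2 ℝ} (hM : M.det = 1) (h1 : Inc Q T) (h2 : Inc Q M) : Inc Q (T * M) := by
  intro s t hst
  have e : (T * M)ᵀ * Q * (T * M) - Q = Mᵀ * (Tᵀ * Q * T - Q) * M + (Mᵀ * Q * M - Q) := by
    rw [Matrix.transpose_mul]
    noncomm_ring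
  rw [e, qf_add, qf_conj]
  have := h1 _ _ (ne_zero_map hM hst)
  have := h2 s t hst
  linarith

lemma Inc.mul_pow {Q T M : M2 ℝ} (hM : M.det = 1) (h1 : Inc Q T) (h2 : Inc Q M) (j : ℕ) :
    Inc Q (T * M ^ j) := by
  induction j with
  | zero => simpa using h1
  | succ j ih => rw [pow_succ, ← mul_assoc]; exact ih.mul hM h2

lemma continuous_tr (w : List ℝ) : Continuous fun E : ℝ => tr E w := by
  induction w with
  | nil => exact continuous_const
  | cons x w ih =>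
    refine ih.matrix_mul ?_
    apply continuous_matrix
    intro i j
    fin_cases i <;> fin_cases j <;> simp [AA] <;> fun_prop

lemma isOpen_inc (Q : M2 ℝ) {T : ℝ → M2 ℝ} (hT : Continuous T) : IsOpen {E | Inc Q (T E)} := by
  have hc : Continuous fun E => (T E)ᵀ * Q * T E - Q :=
    ((hT.matrix_transpose.matrix_mul continuous_const).matrix_mul hT).sub continuous_const
  have he : ∀ i j, Continuous fun E => ((T E)ᵀ * Q * T E - Q) i j := fun i j =>
    hc.matrix_elem i j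
  simp only [Inc, pos_iff]
  exact (isOpen_lt continuous_const (he 0 0)).inter (isOpen_lt continuous_const
    ((continuous_const.mul ((he 0 0).mul (he 1 1))).sub (((he 0 1).add (he 1 0)).pow 2)))

/-- the diagonal case -/
lemma ex_diag {μ ν : ℝ} (h1 : μ * ν = 1) (h2 : 1 < μ ^ 2) (D : M2 ℝ) (hA : D 0 0 ≠ 0) :
    ∃ Q : M2 ℝ, ∃ j : ℕ, Inc Q !![μ, 0; 0, ν] ∧ Inc Q (D * !![μ, 0; 0, ν] ^ j) := by
  set θ := (D 1 0 ^ 2 + 1) / D 0 0 ^ 2 with hθ
  have hθ0 : 0 < θ := by positivity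
  have hθ1 : θ * D 0 0 ^ 2 = D 1 0 ^ 2 + 1 := by rw [hθ]; field_simp
  have hν : ν ^ 2 < 1 := by
    have : μ ^ 2 * ν ^ 2 = 1 := by rw [← mul_pow, h1]; norm_num
    by_contra hcon
    push Not at hcon
    nlinarith
  have hpow : ∀ j : ℕ, (!![μ, 0; 0, ν] : M2 ℝ) ^ j = !![μ ^ j, 0; 0, ν ^ j] := by
    intro j
    induction j with
    | zero => simp [Matrix.one_fin_two]
    | succ j ih => rw [pow_succ, ih]; simp [pow_succ]
  set K := (θ * D 0 0 * D 0 1 - D 1 0 * D 1 1) ^ 2 with hK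
  have t1 : Tendsto (fun j : ℕ => (μ ^ 2) ^ j) atTop atTop := tendsto_pow_atTop_atTop_of_one_lt h2
  have t2 : Tendsto (fun j : ℕ => (ν ^ 2) ^ j) atTop (𝓝 0) :=
    tendsto_pow_atTop_nhds_zero_of_lt_one (sq_nonneg _) hν
  have t3 : Tendsto (fun j : ℕ => (θ * D 0 1 ^ 2 - D 1 1 ^ 2) * (ν ^ 2) ^ j + 1) atTop
      (𝓝 ((θ * D 0 1 ^ 2 - D 1 1 ^ 2) * 0 + 1)) := (t2.const_mul _).add_const _
  rw [mul_zero, zero_add] at t3
  have e1 := t1.eventually (eventually_gt_atTop (θ + 2 * K + 1))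
  have e2 := t3.eventually (lt_mem_nhds (by norm_num : (1 : ℝ) / 2 < 1))
  obtain ⟨j, hj1, hj2⟩ := (e1.and e2).exists
  refine ⟨!![θ, 0; 0, -1], j, ?_, ?_⟩
  · rw [Inc, pos_iff]
    simp [Matrix.mul_apply, Fin.sum_univ_two]
    constructor
    · nlinarith
    · have a1 : 0 < μ * θ * μ - θ := by nlinarith
      have a2 : 0 < -(ν * ν) + 1 := by nlinarith
      positivity
  · rw [hpow, Inc, pos_iff]
    have hmn : μ ^ j * ν ^ j = 1 := by rw [← mul_pow, h1, one_pow]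
    rw [← pow_mul, mul_comm 2 j, pow_mul] at hj1 hj2
    set m := μ ^ j
    set n := ν ^ j
    have p00 : ((D * !![m, 0; 0, n])ᵀ * !![θ, 0; 0, -1] * (D * !![m, 0; 0, n]) -
        (!![θ, 0; 0, -1] : M2 ℝ)) 0 0 = m ^ 2 - θ := by
      simp [Matrix.mul_apply, Fin.sum_univ_two]
      linear_combination m ^ 2 * hθ1
    have p11 : ((D * !![m, 0; 0, n])ᵀ * !![θ, 0; 0, -1] * (D * !![m, 0; 0, n]) -
        (!![θ, 0; 0, -1] : M2 ℝ)) 1 1 = (θ * D 0 1 ^ 2 - D 1 1 ^ 2) * n ^ 2 + 1 := by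
      simp [Matrix.mul_apply, Fin.sum_univ_two]
      ring
    have p01 : ((D * !![m, 0; 0, n])ᵀ * !![θ, 0; 0, -1] * (D * !![m, 0; 0, n]) -
        (!![θ, 0; 0, -1] : M2 ℝ)) 0 1 = θ * D 0 0 * D 0 1 - D 1 0 * D 1 1 := by
      simp [Matrix.mul_apply, Fin.sum_univ_two]
      linear_combination (θ * D 0 0 * D 0 1 - D 1 0 * D 1 1) * hmn
    have p10 : ((D * !![m, 0; 0, n])ᵀ * !![θ, 0; 0, -1] * (D * !![m, 0; 0, n]) -
        (!![θ, 0; 0, -1] : M2 ℝ)) 1 0 = θ * D 0 0 * D 0 1 - D 1 0 * D 1 1 := by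
      simp [Matrix.mul_apply, Fin.sum_univ_two]
      linear_combination (θ * D 0 0 * D 0 1 - D 1 0 * D 1 1) * hmn
    rw [p00, p11, p01, p10]
    have hK0 : 0 ≤ K := sq_nonneg _
    refine ⟨by linarith, ?_⟩
    have : (θ * D 0 0 * D 0 1 - D 1 0 * D 1 1 + (θ * D 0 0 * D 0 1 - D 1 0 * D 1 1)) ^ 2 = 4 * K := by
      rw [hK]; ring
    rw [this]
    nlinarith [mul_pos (by linarith : 0 < m ^ 2 - θ - 2 * K - 1)
      (by linarith : 0 < (θ * D 0 1 ^ 2 - D 1 1 ^ 2) * n ^ 2 + 1 - 1 / 2)]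

lemma Inc.conj {Q T T' C : M2 ℝ} (hC : C.det ≠ 0) (h : C * T = T' * C) (hi : Inc Q T') :
    Inc (Cᵀ * Q * C) T := by
  intro s t hst
  have e : Tᵀ * (Cᵀ * Q * C) * T - Cᵀ * Q * C = Cᵀ * (T'ᵀ * Q * T' - Q) * C := by
    have : Tᵀ * (Cᵀ * Q * C) * T = (C * T)ᵀ * Q * (C * T) := by
      rw [Matrix.transpose_mul]; noncomm_ring
    rw [this, h, Matrix.transpose_mul]
    noncomm_ring
  rw [e, qf_conj]
  apply hi
  rw [Matrix.det_fin_two] at hC
  by_contra hcon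
  push Not at hcon
  obtain ⟨h1, h2⟩ := hcon
  have hs : (C 0 0 * C 1 1 - C 0 1 * C 1 0) * s = 0 := by
    linear_combination C 1 1 * h1 - C 0 1 * h2
  have ht : (C 0 0 * C 1 1 - C 0 1 * C 1 0) * t = 0 := by
    linear_combination C 0 0 * h2 - C 1 0 * h1
  rcases hst with h3 | h3
  · exact h3 ((mul_eq_zero.1 hs).resolve_left hC)
  · exact h3 ((mul_eq_zero.1 ht).resolve_left hC)

lemma ex_conj {M : M2 ℝ} (hM : M.det = 1) {μ ν : ℝ} (h1 : μ * ν = 1)
    (h2 : μ + ν = M 0 0 + M 1 1) (h3 : μ ≠ ν) :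
    ∃ C : M2 ℝ, C.det ≠ 0 ∧ C * M = !![μ, 0; 0, ν] * C := by
  rw [Matrix.det_fin_two] at hM
  have hne : μ - ν ≠ 0 := sub_ne_zero.2 h3
  have cμ : μ ^ 2 - (M 0 0 + M 1 1) * μ + 1 = 0 := by rw [← h2]; linear_combination -h1
  have cν : ν ^ 2 - (M 0 0 + M 1 1) * ν + 1 = 0 := by rw [← h2]; linear_combination -h1
  by_cases hb : M 0 1 ≠ 0
  · refine ⟨!![μ - M 1 1, M 0 1; ν - M 1 1, M 0 1], ?_, ?_⟩
    · rw [Matrix.det_fin_two_of]
      have : (μ - M 1 1) * M 0 1 - M 0 1 * (ν - M 1 1) = (μ - ν) * M 0 1 := by ring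
      rw [this]; exact mul_ne_zero hne hb
    · ext i j
      fin_cases i <;> fin_cases j <;> simp [Matrix.mul_apply, Fin.sum_univ_two]
      · linear_combination -hM - cμ
      · ring
      · linear_combination -hM - cν
      · ring
  · push Not at hb
    by_cases hc : M 1 0 ≠ 0
    · refine ⟨!![M 1 0, μ - M 0 0; M 1 0, ν - M 0 0], ?_, ?_⟩
      · rw [Matrix.det_fin_two_of]
        have : M 1 0 * (ν - M 0 0) - (μ - M 0 0) * M 1 0 = -((μ - ν) * M 1 0) := by ring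
        rw [this]; exact neg_ne_zero.2 (mul_ne_zero hne hc)
      · ext i j
        fin_cases i <;> fin_cases j <;> simp [Matrix.mul_apply, Fin.sum_univ_two]
        · ring
        · linear_combination -hM - cμ
        · ring
        · linear_combination -hM - cν
    · push Not at hc
      rw [hb] at hM
      have : (μ - M 0 0) * (μ - M 1 1) = 0 := by linear_combination cμ + hM
      rcases mul_eq_zero.1 this with h | h
      · refine ⟨1, by simp, ?_⟩
        ext i j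
        fin_cases i <;> fin_cases j <;> simp [hb, hc]
        · linarith
        · linarith
      · refine ⟨!![0, 1; 1, 0], by simp [Matrix.det_fin_two_of], ?_⟩
        ext i j
        fin_cases i <;> fin_cases j <;> simp [Matrix.mul_apply, Fin.sum_univ_two, hb, hc]
        · linarith
        · linarith

/-- existence of a Lyapunov form off the bands and off the defect energies -/
lemma ex_form {M D : M2 ℝ} (hM : M.det = 1) (hD : D.det = 1) (hx : 4 < (M 0 0 + M 1 1) ^ 2)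
    (hJ : (M 0 0 + M 1 1) ^ 2 - 4 ≠ - JJ M D) :
    ∃ Q : M2 ℝ, ∃ j : ℕ, Inc Q M ∧ Inc Q (D * M ^ j) := by
  set x := M 0 0 + M 1 1 with hxdef
  obtain ⟨μ, ν, h1, h2, h3⟩ : ∃ μ ν : ℝ, μ * ν = 1 ∧ μ + ν = x ∧ 1 < μ ^ 2 := by
    have hs := Real.sq_sqrt (by linarith : 0 ≤ x ^ 2 - 4)
    have hs0 := Real.sqrt_nonneg (x ^ 2 - 4)
    set r := Real.sqrt (x ^ 2 - 4)
    rcases le_total 0 x with h | h
    · have : 2 < x := by nlinarith
      exact ⟨(x + r) / 2, (x - r) / 2, by nlinarith, by ring, by nlinarith⟩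
    · have : x < -2 := by nlinarith
      exact ⟨(x - r) / 2, (x + r) / 2, by nlinarith, by ring, by nlinarith⟩
  have h4 : μ ≠ ν := by
    rintro rfl
    nlinarith
  obtain ⟨C, hC, hCM⟩ := ex_conj hM h1 h2 h4
  have hCu : IsUnit C.det := isUnit_iff_ne_zero.2 hC
  set L : M2 ℝ := !![μ, 0; 0, ν] with hL
  obtain ⟨D', hCD⟩ : ∃ D' : M2 ℝ, C * D = D' * C :=
    ⟨C * D * C⁻¹, by rw [mul_assoc, Matrix.nonsing_inv_mul C hCu, mul_one]⟩
  have hdet : D'.det = 1 := by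
    have := congrArg Matrix.det hCD
    rw [Matrix.det_mul, Matrix.det_mul, hD, mul_one] at this
    have h5 : (D'.det - 1) * C.det = 0 := by linarith
    rcases mul_eq_zero.1 h5 with h | h
    · linarith
    · exact absurd h hC
  have hJ' : JJ L D' = JJ M D := by
    have e : C * (M * D - D * M) = (L * D' - D' * L) * C := by
      rw [mul_sub, sub_mul, ← mul_assoc, hCM, mul_assoc, hCD, ← mul_assoc C D, hCD, mul_assoc D',
        hCM, mul_assoc, mul_assoc]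
    have := congrArg Matrix.det e
    rw [Matrix.det_mul, Matrix.det_mul] at this
    unfold JJ
    have h5 : ((L * D' - D' * L).det - (M * D - D * M).det) * C.det = 0 := by linarith
    rcases mul_eq_zero.1 h5 with h | h
    · linarith
    · exact absurd h hC
  have hA : D' 0 0 ≠ 0 := by
    intro h0
    apply hJ
    rw [← hJ']
    rw [Matrix.det_fin_two, h0] at hdet
    unfold JJ
    rw [hL]
    simp [Matrix.det_fin_two, Matrix.mul_apply, Fin.sum_univ_two, h0, Matrix.vecMul, dotProduct]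
    rw [← h2]
    linear_combination (4 : ℝ) * h1 - (μ - ν) ^ 2 * hdet
  obtain ⟨Q, j, i1, i2⟩ := ex_diag h1 h3 D' hA
  refine ⟨Cᵀ * Q * C, j, i1.conj hC hCM, i2.conj hC ?_⟩
  have : ∀ k : ℕ, C * M ^ k = L ^ k * C := by
    intro k
    induction k with
    | zero => simp
    | succ k ih => rw [pow_succ, ← mul_assoc, ih, mul_assoc, hCM, ← mul_assoc, ← pow_succ]
  rw [← mul_assoc, hCD, mul_assoc, this, mul_assoc]

lemma inc_letter {e : ℝ} (he : 4 < e ^ 2) : Inc !![1, 0; 0, -1] (AA e) := by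
  rw [Inc, pos_iff]
  simp [AA, Matrix.mul_apply, Fin.sum_univ_two]
  constructor <;> nlinarith

end Pool.Agent.H566Z.St
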