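import Mathlib
import Pool.Agent.H566Z.St2

/-! A priori estimates from Lyapunov forms. -/

set_option autoImplicit false

namespace Pool.Agent.H566Z.St

open Matrix Filter Topology

/-- the word `w` is read in `V` from position `t` on -/
def Blk (V : ℤ → ℝ) : ℤ → List ℝ → Prop
  | _, [] => True
  | t, x :: w => V t = x ∧ Blk V (t + 1) w

lemma blk_append (V : ℤ → ℝ) (u w : List ℝ) : ∀ t : ℤ,
    Blk V t (u ++ w) ↔ Blk V t u ∧ Blk V (t + u.length) w := by
  induction u with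
  | nil => intro t; simp [Blk]
  | cons x u ih =>
    intro t
    rw [List.cons_append, Blk, Blk, ih, and_assoc, List.length_cons]
    push_cast
    rw [add_assoc t 1, add_comm 1]

/-- sums over integer intervals -/
noncomputable def SI (f : ℤ → ℝ) (a b : ℤ) : ℝ := ∑ n ∈ Finset.Ico a b, f n

lemma SI_add (f : ℤ → ℝ) {a b c : ℤ} (h1 : a ≤ b) (h2 : b ≤ c) : SI f a b + SI f b c = SI f a c := by
  unfold SI
  rw [← Finset.sum_union (Finset.Ico_disjoint_Ico_consecutive a b c),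
    Finset.Ico_union_Ico_eq_Ico h1 h2]

lemma SI_self (f : ℤ → ℝ) (a : ℤ) : SI f a a = 0 := by simp [SI]

lemma SI_one (f : ℤ → ℝ) (a : ℤ) : SI f a (a + 1) = f a := by
  unfold SI
  have : Finset.Ico a (a + 1) = {a} := by
    ext n; simp only [Finset.mem_Ico, Finset.mem_singleton]; omega
  rw [this, Finset.sum_singleton]

lemma SI_nonneg {f : ℤ → ℝ} (hf : ∀ n, 0 ≤ f n) (a b : ℤ) : 0 ≤ SI f a b :=
  Finset.sum_nonneg fun n _ => hf n

lemma one_step {Q1 Q : M2 ℝ} {e : ℝ} (h : Pos ((AA e)ᵀ * Q1 * AA e - Q)) :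
    ∃ c C : ℝ, 0 < c ∧ 0 ≤ C ∧ ∀ s t r : ℝ,
      c * s ^ 2 - C * r ^ 2 ≤ qf Q1 (e * s - t + r) s - qf Q s t := by
  obtain ⟨c0, hc0, h0⟩ := h.lower
  set k0 := 2 * Q1 0 0 * e + (Q1 0 1 + Q1 1 0)
  set k1 := -2 * Q1 0 0
  refine ⟨c0 / 2, (k0 ^ 2 + k1 ^ 2) / (2 * c0) + |Q1 0 0|, by positivity, by positivity, ?_⟩
  intro s t r
  have h1 := h0 s t
  rw [qf_sub, qf_conj] at h1
  have e1 : AA e 0 0 * s + AA e 0 1 * t = e * s - t := by simp [AA]; ring
  have e2 : AA e 1 0 * s + AA e 1 1 * t = s := by simp [AA]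
  rw [e1, e2] at h1
  have e3 : qf Q1 (e * s - t + r) s = qf Q1 (e * s - t) s + r * (k0 * s + k1 * t) + Q1 0 0 * r ^ 2 := by
    unfold qf; simp only [k0, k1]; ring
  rw [e3]
  have h2 : -(|Q1 0 0| * r ^ 2) ≤ Q1 0 0 * r ^ 2 := by
    have := neg_abs_le (Q1 0 0)
    nlinarith [sq_nonneg r]
  have h3 : -(c0 / 2 * (s ^ 2 + t ^ 2)) - (k0 ^ 2 + k1 ^ 2) / (2 * c0) * r ^ 2 ≤
      r * (k0 * s + k1 * t) := by
    have : r * (k0 * s + k1 * t) + c0 / 2 * (s ^ 2 + t ^ 2) + (k0 ^ 2 + k1 ^ 2) / (2 * c0) * r ^ 2 =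
        ((c0 * s + k0 * r) ^ 2 + (c0 * t + k1 * r) ^ 2) / (2 * c0) := by
      field_simp; ring
    have h4 : 0 ≤ ((c0 * s + k0 * r) ^ 2 + (c0 * t + k1 * r) ^ 2) / (2 * c0) := by positivity
    linarith
  nlinarith [sq_nonneg t]

lemma block_est (E : ℝ) (w : List ℝ) : ∀ Q' Q : M2 ℝ, Pos ((tr E w)ᵀ * Q' * tr E w - Q) →
    ∃ c C : ℝ, 0 < c ∧ 0 ≤ C ∧ ∀ (V v r : ℤ → ℝ) (t : ℤ), Blk V t w →
      (∀ n, v (n + 1) + v (n - 1) + (V n - E) * v n = r n) →
      c * SI (fun n => v n ^ 2) t (t + w.length) - C * SI (fun n => r n ^ 2) t (t + w.length) ≤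
        qf Q' (v (t + w.length)) (v (t + w.length - 1)) - qf Q (v t) (v (t - 1)) := by
  induction w with
  | nil =>
    intro Q' Q h
    refine ⟨1, 0, one_pos, le_rfl, fun V v r t _ _ => ?_⟩
    obtain ⟨c0, hc0, h0⟩ := h.lower
    have h1 := h0 (v t) (v (t - 1))
    simp only [tr_nil, Matrix.transpose_one, one_mul, mul_one, qf_sub] at h1
    simp only [List.length_nil, Nat.cast_zero, add_zero, SI_self]
    nlinarith [sq_nonneg (v t), sq_nonneg (v (t - 1))]
  | cons x w ih =>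
    intro Q' Q h
    obtain ⟨c0, hc0, h0⟩ := h.lower
    set e := E - x with he
    have hA : algebraMap ℝ ℝ x = x := rfl
    set κ := c0 / (4 * e ^ 2 + 4) with hκ
    have hκ0 : 0 < κ := by positivity
    have hκ1 : κ * (4 * e ^ 2 + 4) = c0 := by rw [hκ]; field_simp
    set Q1 := (tr E w)ᵀ * Q' * tr E w - κ • (1 : M2 ℝ) with hQ1
    have p1 : Pos ((tr E w)ᵀ * Q' * tr E w - Q1) := by
      intro s t hst
      rw [hQ1, sub_sub_cancel, qf_smul_one]
      have : 0 < s ^ 2 + t ^ 2 := by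
        rcases hst with h | h <;> positivity
      positivity
    have p2 : Pos ((AA e)ᵀ * Q1 * AA e - Q) := by
      intro s t hst
      have h1 := h0 s t
      have e0 : (tr E (x :: w))ᵀ * Q' * tr E (x :: w) = (AA e)ᵀ * ((tr E w)ᵀ * Q' * tr E w) * AA e := by
        rw [tr_cons, hA, ← he, Matrix.transpose_mul]; noncomm_ring
      rw [e0, qf_sub, qf_conj] at h1
      rw [qf_sub, qf_conj, hQ1, qf_sub, qf_smul_one]
      have e1 : AA e 0 0 * s + AA e 0 1 * t = e * s - t := by simp [AA]; ring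
      have e2 : AA e 1 0 * s + AA e 1 1 * t = s := by simp [AA]
      rw [e1, e2] at h1 ⊢
      have hp : 0 < s ^ 2 + t ^ 2 := by
        rcases hst with h | h <;> positivity
      have h2 : (e * s - t) ^ 2 + s ^ 2 ≤ (2 * e ^ 2 + 2) * (s ^ 2 + t ^ 2) := by
        nlinarith [sq_nonneg (e * s + t), sq_nonneg (e * t), sq_nonneg s]
      have h3 := mul_le_mul_of_nonneg_left h2 hκ0.le
      nlinarith [mul_pos hc0 hp]
    obtain ⟨c1, C1, hc1, hC1, h1⟩ := ih Q' Q1 p1
    obtain ⟨c2, C2, hc2, hC2, h2⟩ := one_step p2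
    refine ⟨min c1 c2, max C1 C2, lt_min hc1 hc2, le_max_of_le_left hC1, ?_⟩
    intro V v r t hb hr
    obtain ⟨hb1, hb2⟩ := hb
    have h3 := h1 V v r (t + 1) hb2 hr
    have h4 := h2 (v t) (v (t - 1)) (r t)
    have h5 : e * v t - v (t - 1) + r t = v (t + 1) := by
      rw [← hr t, hb1, he]; ring
    rw [h5] at h4
    have h6 : t + ((x :: w).length : ℕ) = t + 1 + w.length := by
      rw [List.length_cons]; push_cast; ring
    rw [h6, ← SI_add _ (by omega : t ≤ t + 1) (by omega : t + 1 ≤ t + 1 + w.length),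
      ← SI_add _ (by omega : t ≤ t + 1) (by omega : t + 1 ≤ t + 1 + w.length), SI_one, SI_one]
    rw [add_sub_cancel_right] at h3
    have a1 := SI_nonneg (f := fun n => v n ^ 2) (fun n => sq_nonneg _) (t + 1) (t + 1 + w.length)
    have a2 := SI_nonneg (f := fun n => r n ^ 2) (fun n => sq_nonneg _) (t + 1) (t + 1 + w.length)
    have b1 := mul_le_mul_of_nonneg_right (min_le_left c1 c2) a1
    have b2 := mul_le_mul_of_nonneg_right (min_le_right c1 c2) (sq_nonneg (v t))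
    have b3 := mul_le_mul_of_nonneg_right (le_max_left C1 C2) a2
    have b4 := mul_le_mul_of_nonneg_right (le_max_right C1 C2) (sq_nonneg (r t))
    nlinarith

/-- `V` is a concatenation of copies of the two words -/
def Cat (V : ℤ → ℝ) (u0 u1 : List ℝ) : Prop :=
  ∃ t : ℤ → ℤ, ∀ k, (Blk V (t k) u0 ∧ t (k + 1) = t k + u0.length) ∨
    (Blk V (t k) u1 ∧ t (k + 1) = t k + u1.length)

lemma tendsto_qf {Q : M2 ℝ} {v : ℤ → ℝ} (hv : Summable fun n => v n ^ 2) {a : ℕ → ℤ}
    (ha : Function.Injective a) : Tendsto (fun N => qf Q (v (a N)) (v (a N - 1))) atTop (𝓝 0) := by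
  have h0 : Tendsto v cofinite (𝓝 0) := by
    have h1 := hv.tendsto_cofinite_zero
    have h2 := h1.sqrt
    simp only [Real.sqrt_sq_eq_abs, Real.sqrt_zero] at h2
    exact (tendsto_zero_iff_abs_tendsto_zero _).2 h2
  have h1 : Tendsto (fun N => v (a N)) atTop (𝓝 0) := by
    rw [← Nat.cofinite_eq_atTop]
    exact h0.comp ha.tendsto_cofinite
  have h2 : Tendsto (fun N => v (a N - 1)) atTop (𝓝 0) := by
    rw [← Nat.cofinite_eq_atTop]
    have : Function.Injective fun N => a N - 1 := fun x y h => ha (by simpa using h)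
    exact h0.comp this.tendsto_cofinite
  have h3 := (((h1.pow 2).const_mul (Q 0 0)).add ((h1.const_mul (Q 0 1 + Q 1 0)).mul h2)).add
    ((h2.pow 2).const_mul (Q 1 1))
  simpa [qf] using h3

lemma lyap {E : ℝ} {u0 u1 : List ℝ} (h0 : 1 ≤ u0.length) (h1 : 1 ≤ u1.length) {Q : M2 ℝ}
    (i0 : Inc Q (tr E u0)) (i1 : Inc Q (tr E u1)) {V : ℤ → ℝ} (hV : Cat V u0 u1) :
    ∃ C : ℝ, 0 ≤ C ∧ ∀ v r : ℤ → ℝ, (∀ n, v (n + 1) + v (n - 1) + (V n - E) * v n = r n) →
      (Summable fun n => v n ^ 2) → (Summable fun n => r n ^ 2) →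
      ∑' n, v n ^ 2 ≤ C * ∑' n, r n ^ 2 := by
  obtain ⟨t, ht⟩ := hV
  obtain ⟨c0, C0, hc0, hC0, e0⟩ := block_est E u0 Q Q i0
  obtain ⟨c1, C1, hc1, hC1, e1⟩ := block_est E u1 Q Q i1
  set c := min c0 c1
  set C := max C0 C1
  have hc : 0 < c := lt_min hc0 hc1
  have hC : 0 ≤ C := le_max_of_le_left hC0
  have hstep : ∀ k, t k + 1 ≤ t (k + 1) := by
    intro k
    rcases ht k with h | h <;> omega
  have hmono : StrictMono t := strictMono_int_of_lt_succ fun k => by have := hstep k; omega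
  refine ⟨C / c, by positivity, fun v r hr hv hs => ?_⟩
  have key : ∀ k, c * SI (fun n => v n ^ 2) (t k) (t (k + 1)) -
      C * SI (fun n => r n ^ 2) (t k) (t (k + 1)) ≤
      qf Q (v (t (k + 1))) (v (t (k + 1) - 1)) - qf Q (v (t k)) (v (t k - 1)) := by
    intro k
    have a1 := SI_nonneg (f := fun n => v n ^ 2) (fun n => sq_nonneg _) (t k) (t (k + 1))
    have a2 := SI_nonneg (f := fun n => r n ^ 2) (fun n => sq_nonneg _) (t k) (t (k + 1))
    rcases ht k with ⟨h2, h3⟩ | ⟨h2, h3⟩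
    · have := e0 V v r (t k) h2 hr
      rw [← h3] at this
      have b1 := mul_le_mul_of_nonneg_right (min_le_left c0 c1) a1
      have b3 := mul_le_mul_of_nonneg_right (le_max_left C0 C1) a2
      linarith
    · have := e1 V v r (t k) h2 hr
      rw [← h3] at this
      have b1 := mul_le_mul_of_nonneg_right (min_le_right c0 c1) a1
      have b3 := mul_le_mul_of_nonneg_right (le_max_right C0 C1) a2
      linarith
  have key2 : ∀ (k : ℤ) (m : ℕ), c * SI (fun n => v n ^ 2) (t k) (t (k + m)) -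
      C * SI (fun n => r n ^ 2) (t k) (t (k + m)) ≤
      qf Q (v (t (k + m))) (v (t (k + m) - 1)) - qf Q (v (t k)) (v (t k - 1)) := by
    intro k m
    induction m with
    | zero => simp [SI_self]
    | succ m ih =>
      have h2 := key (k + m)
      have l1 : t k ≤ t (k + m) := hmono.monotone (by omega)
      have l2 : t (k + m) ≤ t (k + m + 1) := hmono.monotone (by omega)
      push_cast
      rw [← add_assoc, ← SI_add _ l1 l2, ← SI_add _ l1 l2]
      linarith
  have hge : ∀ m : ℕ, t 0 + m ≤ t m ∧ t (-m) ≤ t 0 - m := by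
    intro m
    induction m with
    | zero => simp
    | succ m ih =>
      have a1 := hstep m
      have a2 := hstep (-(m + 1))
      rw [show -((m : ℤ) + 1) + 1 = -m by ring] at a2
      push_cast
      omega
  have hlim : Tendsto (fun N : ℕ => C * ∑' n, r n ^ 2 + (qf Q (v (t N)) (v (t N - 1)) -
      qf Q (v (t (-N))) (v (t (-N) - 1)))) atTop (𝓝 (C * ∑' n, r n ^ 2 + (0 - 0))) := by
    refine ((tendsto_qf hv (a := fun N => t N) ?_).sub
      (tendsto_qf hv (a := fun N => t (-N)) ?_)).const_add _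
    · intro a b h
      have := hmono.injective h
      exact_mod_cast this
    · intro a b h
      have := hmono.injective h
      omega
  rw [div_mul_eq_mul_div, le_div_iff₀ hc]
  have hfin : ∀ s : Finset ℤ, (∑ n ∈ s, v n ^ 2) * c ≤ C * ∑' n, r n ^ 2 := by
    intro s
    rw [sub_zero, add_zero] at hlim
    refine ge_of_tendsto hlim ?_
    obtain ⟨B, hB⟩ := (s.image fun n => (n - t 0).natAbs).bddAbove
    filter_upwards [eventually_gt_atTop B] with N hN
    have h2 := key2 (-N) (2 * N)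
    rw [show -(N : ℤ) + ((2 * N : ℕ) : ℤ) = N by push_cast; ring] at h2
    have h3 : ∑ n ∈ s, v n ^ 2 ≤ SI (fun n => v n ^ 2) (t (-N)) (t N) := by
      apply Finset.sum_le_sum_of_subset_of_nonneg _ (fun n _ _ => sq_nonneg _)
      intro n hn
      have h4 : (n - t 0).natAbs ≤ B := hB (by simpa using ⟨n, hn, rfl⟩)
      have h5 := hge N
      rw [Finset.mem_Ico]
      omega
    have h4 : SI (fun n => r n ^ 2) (t (-N)) (t N) ≤ ∑' n, r n ^ 2 :=
      hs.sum_le_tsum _ (fun n _ => sq_nonneg _)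
    have h5 := mul_le_mul_of_nonneg_left h3 hc.le
    have h6 := mul_le_mul_of_nonneg_left h4 hC
    linarith
  rw [← le_div_iff₀ hc]
  apply hv.tsum_le_of_sum_le
  intro s
  rw [le_div_iff₀ hc]
  exact hfin s

end Pool.Agent.H566Z.St
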