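import Mathlib
import Pool.Agent.H566Z.St3
import Pool.Agent.Helper434.PSCplx

/-! The spectrum of a discrete Schroedinger operator: exclusion and inclusion criteria. -/

set_option autoImplicit false

namespace Pool.Agent.H566Z.St

open Filter Topology Pool.Agent.Helper434.PSCplx

/-- the spectrum, as the set of energies where the equation is not uniquely solvable -/
def Spec (V : ℤ → ℝ) : Set ℝ := {E | ¬ (∀ u : ℤ → ℂ, Memℓp u 2 →
  ∃! v : ℤ → ℂ, Memℓp v 2 ∧ ∀ n : ℤ, v (n + 1) + v (n - 1) + ((V n - E : ℝ) : ℂ) * v n = u n)}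

def IsH (V : ℤ → ℝ) (H : L2 →L[ℂ] L2) : Prop :=
  ∀ (ψ : L2) (m : ℤ), H ψ m = ψ (m + 1) + ψ (m - 1) + (V m : ℂ) * ψ m

lemma sub_apply' {V : ℤ → ℝ} {H : L2 →L[ℂ] L2} (hH : IsH V H) (E : ℝ) (ψ : L2) (m : ℤ) :
    (H - algebraMap ℝ (L2 →L[ℂ] L2) E) ψ m =
      ψ (m + 1) + ψ (m - 1) + ((V m - E : ℝ) : ℂ) * ψ m := by
  rw [sub_apply, Algebra.algebraMap_eq_smul_one,
    smul_apply, one_apply_eq_self, lp.coeFn_sub, Pi.sub_apply, hH,
    lp.coeFn_smul, Pi.smul_apply]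
  push_cast
  rw [Complex.real_smul]
  ring

lemma spec_eq {V : ℤ → ℝ} {H : L2 →L[ℂ] L2} (hH : IsH V H) : Spec V = spectrum ℝ H := by
  ext E
  rw [spectrum.mem_iff, ← IsUnit.neg_iff, neg_sub, ContinuousLinearMap.isUnit_iff_bijective,
    Function.bijective_iff_existsUnique]
  unfold Spec
  rw [Set.mem_ofPred_eq, not_iff_not]
  constructor
  · intro h u
    obtain ⟨v, ⟨hv1, hv2⟩, hv3⟩ := h u (lp.memℓp u)
    refine ⟨⟨v, hv1⟩, ?_, ?_⟩
    · ext m
      rw [sub_apply' hH]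
      exact hv2 m
    · intro y hy
      ext m
      have := hv3 y ⟨lp.memℓp y, fun n => by rw [← sub_apply' hH, hy]⟩
      exact congrFun this m
  · intro h u hu
    obtain ⟨v, hv1, hv2⟩ := h ⟨u, hu⟩
    refine ⟨v, ⟨lp.memℓp v, fun n => by rw [← sub_apply' hH, hv1]⟩, ?_⟩
    rintro y ⟨hy1, hy2⟩
    have := hv2 ⟨y, hy1⟩ (by
      ext m
      rw [sub_apply' hH]
      exact hy2 m)
    rw [← this]

lemma spec_compact {V : ℤ → ℝ} {B : ℝ} (hB : ∀ n, |V n| ≤ B) : IsCompact (Spec V) := by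
  obtain ⟨H, h1, -⟩ := exists_H V hB
  rw [spec_eq h1]
  exact spectrum.isCompact H

lemma norm_sq_eq (ψ : L2) : ‖ψ‖ ^ 2 = ∑' n, ‖ψ n‖ ^ 2 := by
  have h := lp.norm_rpow_eq_tsum (p := 2) Pool.Agent.Helper434.PSCplx.two_pos ψ
  simpa using h

lemma summ_sq (ψ : L2) : Summable fun n => ‖ψ n‖ ^ 2 := by
  have h := summ ψ
  simpa using h

lemma summ_re (ψ : L2) : Summable fun n => (ψ n).re ^ 2 :=
  Summable.of_nonneg_of_le (fun _ => sq_nonneg _) (fun n => by
    rw [Complex.sq_norm, Complex.normSq_apply]; nlinarith [sq_nonneg (ψ n).im]) (summ_sq ψ)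

lemma summ_im (ψ : L2) : Summable fun n => (ψ n).im ^ 2 :=
  Summable.of_nonneg_of_le (fun _ => sq_nonneg _) (fun n => by
    rw [Complex.sq_norm, Complex.normSq_apply]; nlinarith [sq_nonneg (ψ n).re]) (summ_sq ψ)

lemma norm_sq_eq' (ψ : L2) : ‖ψ‖ ^ 2 = ∑' n, (ψ n).re ^ 2 + ∑' n, (ψ n).im ^ 2 := by
  rw [norm_sq_eq, ← (summ_re ψ).tsum_add (summ_im ψ)]
  congr 1
  ext n
  rw [Complex.sq_norm, Complex.normSq_apply]; ring

lemma sa_sub {X : Type} [NormedAddCommGroup X] [InnerProductSpace ℂ X] [CompleteSpace X]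
    {H : X →L[ℂ] X} (hH : IsSelfAdjoint H) (E : ℝ) :
    IsSelfAdjoint (H - algebraMap ℝ (X →L[ℂ] X) E) :=
  hH.sub (IsSelfAdjoint.algebraMap _ (IsSelfAdjoint.all E))

lemma not_mem_of_est {V : ℤ → ℝ} {B : ℝ} (hB : ∀ n, |V n| ≤ B) {E C : ℝ} (hC : 0 ≤ C)
    (h : ∀ v r : ℤ → ℝ, (∀ n, v (n + 1) + v (n - 1) + (V n - E) * v n = r n) →
      (Summable fun n => v n ^ 2) → (Summable fun n => r n ^ 2) →
      ∑' n, v n ^ 2 ≤ C * ∑' n, r n ^ 2) : E ∉ Spec V := by
  obtain ⟨H, h1, h2⟩ := exists_H V hB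
  rw [spec_eq h1, spectrum.mem_iff, not_not, ← IsUnit.neg_iff, neg_sub,
    ContinuousLinearMap.isUnit_iff_bijective]
  set T := H - algebraMap ℝ (L2 →L[ℂ] L2) E with hT
  have hest : ∀ ψ : L2, ‖ψ‖ ≤ Real.sqrt C * ‖T ψ‖ := by
    intro ψ
    have a1 := h (fun n => (ψ n).re) (fun n => (T ψ n).re) (fun n => by
      rw [hT, sub_apply' h1]; simp) (summ_re ψ) (summ_re (T ψ))
    have a2 := h (fun n => (ψ n).im) (fun n => (T ψ n).im) (fun n => by
      rw [hT, sub_apply' h1]; simp) (summ_im ψ) (summ_im (T ψ))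
    have a3 : ‖ψ‖ ^ 2 ≤ (Real.sqrt C * ‖T ψ‖) ^ 2 := by
      rw [mul_pow, Real.sq_sqrt hC, norm_sq_eq', norm_sq_eq']
      linarith
    exact (pow_le_pow_iff_left₀ (norm_nonneg _) (by positivity) two_ne_zero).1 a3
  have hsa : IsSelfAdjoint T := sa_sub h2 E
  rw [ContinuousLinearMap.bijective_iff_dense_range_and_antilipschitz]
  refine ⟨?_, ⟨Real.sqrt C, Real.sqrt_nonneg C⟩, ContinuousLinearMap.antilipschitz_of_bound T hest⟩
  rw [Submodule.topologicalClosure_eq_top_iff, Submodule.eq_bot_iff]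
  intro x hx
  rw [Submodule.mem_orthogonal] at hx
  have h3 : inner ℂ (T (T x)) x = 0 := hx _ ⟨T x, rfl⟩
  have h4 := (ContinuousLinearMap.isSelfAdjoint_iff_isSymmetric.1 hsa) (T x) x
  simp only [ContinuousLinearMap.coe_coe] at h4
  rw [h4, inner_self_eq_zero] at h3
  have h5 := hest x
  rw [h3, norm_zero, mul_zero] at h5
  exact norm_le_zero_iff.1 h5

lemma not_mem_of_inc {E : ℝ} {u0 u1 : List ℝ} (h0 : 1 ≤ u0.length) (h1 : 1 ≤ u1.length) {Q : M2 ℝ}
    (i0 : Inc Q (tr E u0)) (i1 : Inc Q (tr E u1)) {V : ℤ → ℝ} (hV : Cat V u0 u1) {B : ℝ}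
    (hB : ∀ n, |V n| ≤ B) : E ∉ Spec V := by
  obtain ⟨C, hC, h⟩ := lyap h0 h1 i0 i1 hV
  exact not_mem_of_est hB hC h

lemma near_spec {X : Type} [NormedAddCommGroup X] [InnerProductSpace ℂ X] [CompleteSpace X]
    {H : X →L[ℂ] X} (hH : IsSelfAdjoint H) {E δ : ℝ} (hδ : 0 < δ) {ψ : X}
    (h : ‖(H - algebraMap ℝ (X →L[ℂ] X) E) ψ‖ < δ * ‖ψ‖) :
    ∃ E' ∈ spectrum ℝ H, |E' - E| < δ := by
  by_contra hcon
  push Not at hcon
  have hne : ∀ x ∈ spectrum ℝ H, x - E ≠ 0 := by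
    intro x hx h0
    have := hcon x hx
    rw [h0, abs_zero] at this
    linarith
  have hc : ContinuousOn (fun x : ℝ => (x - E)⁻¹) (spectrum ℝ H) :=
    (continuousOn_id.sub continuousOn_const).inv₀ hne
  have h1 : cfc (fun x : ℝ => (x - E)⁻¹) H * (H - algebraMap ℝ (X →L[ℂ] X) E) = 1 := by
    have e1 : H - algebraMap ℝ (X →L[ℂ] X) E = cfc (fun x : ℝ => x - E) H := by
      rw [cfc_sub _ _ H, cfc_id' ℝ H, cfc_const E H]
    rw [e1, ← cfc_mul _ _ H hc, ← cfc_one ℝ H]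
    apply cfc_congr
    intro x hx
    simp only [Pi.one_apply]
    exact inv_mul_cancel₀ (hne x hx)
  have h2 : ‖cfc (fun x : ℝ => (x - E)⁻¹) H‖ ≤ δ⁻¹ := by
    apply norm_cfc_le (by positivity)
    intro x hx
    rw [norm_inv, Real.norm_eq_abs]
    exact inv_anti₀ hδ (hcon x hx)
  have h3 : ψ = cfc (fun x : ℝ => (x - E)⁻¹) H ((H - algebraMap ℝ (X →L[ℂ] X) E) ψ) := by
    rw [← mul_apply_eq_comp, h1, one_apply_eq_self]
  have h4 : ‖ψ‖ ≤ δ⁻¹ * ‖(H - algebraMap ℝ (X →L[ℂ] X) E) ψ‖ := by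
    conv_lhs => rw [h3]
    exact (ContinuousLinearMap.le_opNorm _ _).trans
      (mul_le_mul_of_nonneg_right h2 (norm_nonneg _))
  rw [inv_mul_eq_div, le_div_iff₀ hδ] at h4
  linarith

/-- forward solutions with prescribed data -/
noncomputable def fwd (V : ℤ → ℝ) (E : ℝ) (t : ℤ) (a b : ℂ) : ℕ → ℂ × ℂ
  | 0 => (a, b)
  | k + 1 => (((E - V (t + k) : ℝ) : ℂ) * (fwd V E t a b k).1 - (fwd V E t a b k).2,
      (fwd V E t a b k).1)

lemma exists_sol (V : ℤ → ℝ) (E : ℝ) (t : ℤ) (a b : ℂ) : ∃ u : ℤ → ℂ, u t = a ∧ u (t - 1) = b ∧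
    ∀ n, t ≤ n → u (n + 1) + u (n - 1) + ((V n - E : ℝ) : ℂ) * u n = 0 := by
  refine ⟨fun n => (fwd V E t a b (n - t + 1).toNat).2, ?_, ?_, ?_⟩
  · simp [fwd]
  · simp [fwd]
  · intro n hn
    obtain ⟨k, rfl⟩ : ∃ k : ℕ, n = t + k := ⟨(n - t).toNat, by omega⟩
    have e1 : (t + k + 1 - t + 1).toNat = k + 1 + 1 := by omega
    have e2 : (t + k - 1 - t + 1).toNat = k := by omega
    have e3 : (t + k - t + 1).toNat = k + 1 := by omega
    simp only [e1, e2, e3, fwd]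
    push_cast
    ring

lemma sol_tr {V : ℤ → ℝ} {E : ℝ} {u : ℤ → ℂ} {t0 : ℤ}
    (hu : ∀ n, t0 ≤ n → u (n + 1) + u (n - 1) + ((V n - E : ℝ) : ℂ) * u n = 0) (w : List ℝ) :
    ∀ t, t0 ≤ t → Blk V t w →
      u (t + w.length) = tr (E : ℂ) w 0 0 * u t + tr (E : ℂ) w 0 1 * u (t - 1) ∧
      u (t + w.length - 1) = tr (E : ℂ) w 1 0 * u t + tr (E : ℂ) w 1 1 * u (t - 1) := by
  induction w with
  | nil => intro t _ _; simp [tr_nil]
  | cons x w ih =>
    intro t ht hb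
    obtain ⟨h1, h2⟩ := ih (t + 1) (by omega) hb.2
    have h3 := hu t ht
    rw [hb.1] at h3
    have h6 : t + ((x :: w).length : ℕ) = t + 1 + w.length := by
      rw [List.length_cons]; push_cast; ring
    have hx : algebraMap ℝ ℂ x = (x : ℂ) := rfl
    rw [h6, h1, h2, tr00, tr01, tr10, tr11, hx, add_sub_cancel_right]
    push_cast at h3
    have h4 : u (t + 1) = ((E : ℂ) - x) * u t - u (t - 1) := by linear_combination h3
    rw [h4]
    constructor <;> ring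

lemma tr_ofReal (E : ℝ) (w : List ℝ) (i j : Fin 2) : tr (E : ℂ) w i j = ((tr E w i j : ℝ) : ℂ) :=
  (tr_map Complex.ofRealAm E w i j).symm

/-- long periodic stretches produce spectrum near the bands -/
lemma lower {V : ℤ → ℝ} {B : ℝ} (hB : ∀ n, |V n| ≤ B) {w : List ℝ} (hw : 1 ≤ w.length) {j : ℕ}
    {t : ℤ} (hb : Blk V t (pw w j)) {E δ : ℝ} (hδ : 0 < δ) (hj : 16 < j * δ ^ 2)
    (hE : ((dp w).eval E) ^ 2 ≤ 4) : ∃ E' ∈ Spec V, |E' - E| < δ := by
  obtain ⟨H, h1, h2⟩ := exists_H V hB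
  rw [spec_eq h1]
  rw [eval_dp] at hE
  set x := tr E w 0 0 + tr E w 1 1 with hx
  obtain ⟨ρ, hs⟩ : ∃ ρ : ℝ, ρ ^ 2 = 1 - x ^ 2 / 4 :=
    ⟨_, Real.sq_sqrt (by nlinarith : 0 ≤ 1 - x ^ 2 / 4)⟩
  set μ : ℂ := ⟨x / 2, ρ⟩ with hμ
  have hμ1 : ‖μ‖ = 1 := by
    have : ‖μ‖ ^ 2 = 1 := by
      rw [Complex.sq_norm, Complex.normSq_apply]; simp only [hμ]; nlinarith
    exact (pow_eq_one_iff_of_nonneg (norm_nonneg _) two_ne_zero).1 this
  obtain ⟨a, b, hab, e1, e2⟩ := eigvec (tr (E : ℂ) w) (det_tr' _ w) μ (by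
    rw [tr_ofReal, tr_ofReal, ← Complex.ofReal_add, ← hx]
    apply Complex.ext
    · simp [hμ, sq]; nlinarith
    · simp [hμ, sq]; ring)
  obtain ⟨u, hu1, hu2, hu3⟩ := exists_sol V E t a b
  set q := w.length with hq
  have hper : ∀ i : ℕ, i ≤ j → Blk V t (pw w i) := by
    intro i hi
    obtain ⟨k, rfl⟩ := Nat.exists_eq_add_of_le hi
    clear hi hj
    induction k with
    | zero => exact hb
    | succ k ih =>
      apply ih
      rw [← add_assoc, pw, blk_append] at hb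
      exact hb.1
  have hval : ∀ i : ℕ, i ≤ j → u (t + i * q) = μ ^ i * a ∧ u (t + i * q - 1) = μ ^ i * b := by
    intro i
    induction i with
    | zero => intro _; simp [hu1, hu2]
    | succ i ih =>
      intro hi
      obtain ⟨a1, a2⟩ := ih (by omega)
      have h3 := hper (i + 1) hi
      rw [pw, blk_append, length_pw] at h3
      have h4 := sol_tr hu3 w (t + ((i * q : ℕ) : ℤ)) (by omega) h3.2
      push_cast at h4 ⊢
      rw [a1, a2] at h4
      rw [show t + ((i : ℤ) + 1) * q = t + i * q + q by ring, h4.1, h4.2]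
      constructor
      · linear_combination μ ^ i * e1
      · linear_combination μ ^ i * e2
  have hnorm : ∀ i : ℕ, i ≤ j → ‖u (t + i * q)‖ = ‖a‖ ∧ ‖u (t + i * q - 1)‖ = ‖b‖ := by
    intro i hi
    obtain ⟨a1, a2⟩ := hval i hi
    rw [a1, a2, norm_mul, norm_mul, norm_pow, hμ1, one_pow, one_mul, one_mul]
    exact ⟨rfl, rfl⟩
  set m := max ‖a‖ ‖b‖ with hm
  have hm0 : 0 < m := by
    rcases hab with h | h
    · exact lt_max_of_lt_left (norm_pos_iff.2 h)
    · exact lt_max_of_lt_right (norm_pos_iff.2 h)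
  have hj0 : 0 < j := by
    rcases Nat.eq_zero_or_pos j with h | h
    · rw [h] at hj; norm_num at hj
    · exact h
  set N : ℤ := j * q with hN
  have hN1 : 1 ≤ N := by
    have : (1 : ℤ) ≤ j := by exact_mod_cast hj0
    have : (1 : ℤ) ≤ q := by exact_mod_cast hw
    nlinarith
  set f : ℤ → ℂ := fun n => if t ≤ n ∧ n < t + N then u n else 0 with hf
  have hfm : Memℓp f 2 := by
    apply memℓp_gen
    apply summable_of_ne_finset_zero (s := Finset.Ico t (t + N))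
    intro n hn
    rw [Finset.mem_Ico] at hn
    simp [hf, hn]
  set ψ : L2 := ⟨f, hfm⟩ with hψ
  have hψn : ∀ n, ψ n = f n := fun n => rfl
  have hlow : ∀ i : ℕ, i ≤ j → i * m ^ 2 ≤ SI (fun n => ‖u n‖ ^ 2) t (t + i * q) := by
    intro i
    induction i with
    | zero => intro _; simp [SI_self]
    | succ i ih =>
      intro hi
      have a1 := ih (by omega)
      have hq1 : (1 : ℤ) ≤ q := by exact_mod_cast hw
      have hiq : (0 : ℤ) ≤ i * q := by positivity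
      push_cast
      rw [show t + ((i : ℤ) + 1) * q = t + i * q + q by ring,
        ← SI_add _ (by omega : t ≤ t + i * q) (by omega : t + i * q ≤ t + i * q + q)]
      have a2 : m ^ 2 ≤ SI (fun n => ‖u n‖ ^ 2) (t + i * q) (t + i * q + q) := by
        rcases le_total ‖a‖ ‖b‖ with h | h
        · rw [hm, max_eq_right h, ← (hnorm (i + 1) hi).2]
          apply Finset.single_le_sum (f := fun n => ‖u n‖ ^ 2) (fun n _ => sq_nonneg _)
          rw [Finset.mem_Ico]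
          push_cast
          constructor <;> nlinarith
        · rw [hm, max_eq_left h, ← (hnorm i (by omega)).1]
          apply Finset.single_le_sum (f := fun n => ‖u n‖ ^ 2) (fun n _ => sq_nonneg _)
          rw [Finset.mem_Ico]
          omega
      linarith
  have hψ2 : j * m ^ 2 ≤ ‖ψ‖ ^ 2 := by
    refine (hlow j le_rfl).trans ?_
    rw [norm_sq_eq]
    refine le_trans (le_of_eq ?_) ((summ_sq ψ).sum_le_tsum (Finset.Ico t (t + N))
      (fun n _ => sq_nonneg _))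
    apply Finset.sum_congr rfl
    intro n hn
    rw [Finset.mem_Ico] at hn
    have hn' : t ≤ n ∧ n < t + N := hn
    simp only [hψn, hf, if_pos hn']
  have hres : (H - algebraMap ℝ (L2 →L[ℂ] L2) E) ψ =
      lp.single 2 (t - 1) (u t) - lp.single 2 t (u (t - 1)) - lp.single 2 (t + N - 1) (u (t + N))
        + lp.single 2 (t + N) (u (t + N - 1)) := by
    ext n
    rw [sub_apply' h1]
    simp only [lp.coeFn_add, lp.coeFn_sub, Pi.add_apply, Pi.sub_apply, lp.single_apply, hψn, hf,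
      Pi.single_apply]
    by_cases c1 : t ≤ n ∧ n < t + N
    · have h3 := hu3 n c1.1
      rw [if_pos c1, if_neg (by omega : ¬ n = t - 1), if_neg (by omega : ¬ n = t + N)]
      by_cases c2 : n = t
      · rw [if_neg (by omega : ¬ (t ≤ n - 1 ∧ n - 1 < t + N)), if_pos c2]
        by_cases c3 : n = t + N - 1
        · rw [if_neg (by omega : ¬ (t ≤ n + 1 ∧ n + 1 < t + N)), if_pos c3]
          rw [show t + N = n + 1 by omega, ← c2]
          linear_combination h3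
        · rw [if_pos (by omega : t ≤ n + 1 ∧ n + 1 < t + N), if_neg c3, ← c2]
          linear_combination h3
      · rw [if_pos (by omega : t ≤ n - 1 ∧ n - 1 < t + N), if_neg c2]
        by_cases c3 : n = t + N - 1
        · rw [if_neg (by omega : ¬ (t ≤ n + 1 ∧ n + 1 < t + N)), if_pos c3]
          rw [show t + N = n + 1 by omega]
          linear_combination h3
        · rw [if_pos (by omega : t ≤ n + 1 ∧ n + 1 < t + N), if_neg c3]
          linear_combination h3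
    · rw [if_neg c1, if_neg (by omega : ¬ n = t), if_neg (by omega : ¬ n = t + N - 1)]
      by_cases c2 : n = t - 1
      · rw [if_pos c2, if_pos (by omega : t ≤ n + 1 ∧ n + 1 < t + N),
          if_neg (by omega : ¬ (t ≤ n - 1 ∧ n - 1 < t + N)), if_neg (by omega : ¬ n = t + N),
          show n + 1 = t by omega]
        ring
      · rw [if_neg c2, if_neg (by omega : ¬ (t ≤ n + 1 ∧ n + 1 < t + N))]
        by_cases c3 : n = t + N
        · rw [if_pos c3, if_pos (by omega : t ≤ n - 1 ∧ n - 1 < t + N), c3]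
          ring
        · rw [if_neg c3, if_neg (by omega : ¬ (t ≤ n - 1 ∧ n - 1 < t + N))]
          ring
  have hres2 : ‖(H - algebraMap ℝ (L2 →L[ℂ] L2) E) ψ‖ ≤ 4 * m := by
    rw [hres]
    have p2 : (0 : ENNReal) < 2 := by norm_num
    have n1 : ‖(lp.single 2 (t - 1) (u t) : L2)‖ = ‖a‖ := by rw [lp.norm_single p2, hu1]
    have n2 : ‖(lp.single 2 t (u (t - 1)) : L2)‖ = ‖b‖ := by rw [lp.norm_single p2, hu2]
    have n3 : ‖(lp.single 2 (t + N - 1) (u (t + N)) : L2)‖ = ‖a‖ := by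
      rw [lp.norm_single p2, (hnorm j le_rfl).1]
    have n4 : ‖(lp.single 2 (t + N) (u (t + N - 1)) : L2)‖ = ‖b‖ := by
      rw [lp.norm_single p2, (hnorm j le_rfl).2]
    refine (norm_add_le _ _).trans ?_
    refine (add_le_add_left (norm_sub_le _ _) _).trans ?_
    refine (add_le_add_left (add_le_add_left (norm_sub_le _ _) _) _).trans ?_
    rw [n1, n2, n3, n4]
    have := le_max_left ‖a‖ ‖b‖
    have := le_max_right ‖a‖ ‖b‖
    linarith
  apply near_spec h2 hδ (ψ := ψ)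
  refine lt_of_le_of_lt hres2 ?_
  apply lt_of_pow_lt_pow_left₀ 2 (by positivity)
  have h5 := mul_le_mul_of_nonneg_left hψ2 (sq_nonneg δ)
  have h6 := mul_lt_mul_of_pos_right hj (by positivity : 0 < m ^ 2)
  nlinarith

end Pool.Agent.H566Z.St
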