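import Mathlib
import Pool.Agent.H566Z.St4

/-! Counting clusters of the spectrum at one scale. -/

set_option autoImplicit false

namespace Pool.Agent.H566Z.St

open Filter Topology Polynomial

lemma upper {lam : ℝ} {w d : List ℝ} (hd : 1 ≤ d.length)
    (hJ : ∀ E : ℝ, JJ (tr E w) (tr E d) = -lam ^ 2) {K : Set ℝ} (hK : IsCompact K)
    (hKS : ∀ E ∈ K, 4 < ((dp w).eval E) ^ 2 ∧ ((dp w).eval E) ^ 2 ≠ 4 + lam ^ 2) :
    ∃ j0 : ℕ, ∀ j, j0 ≤ j → ∀ (V : ℤ → ℝ) (B : ℝ), (∀ n, |V n| ≤ B) →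
      Cat V (pw w j ++ d) (pw w (j + 1) ++ d) → ∀ E ∈ K, E ∉ Spec V := by
  let U : ℕ → Set ℝ := fun j => {E | ∃ Q, Inc Q (tr E w) ∧ Inc Q (tr E d * tr E w ^ j)}
  have hmono : Monotone U := by
    intro i j hij E hE
    obtain ⟨Q, h1, h2⟩ := hE
    obtain ⟨k, rfl⟩ := Nat.exists_eq_add_of_le hij
    refine ⟨Q, h1, ?_⟩
    rw [pow_add, ← mul_assoc]
    exact h2.mul_pow (det_tr E w) h1 k
  have hopen : ∀ j, IsOpen (U j) := by
    intro j
    have : U j = ⋃ Q, ({E | Inc Q (tr E w)} ∩ {E | Inc Q (tr E d * tr E w ^ j)}) := by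
      ext E; simp [U]
    rw [this]
    refine isOpen_iUnion fun Q => (isOpen_inc Q (continuous_tr w)).inter (isOpen_inc Q ?_)
    exact (continuous_tr d).mul ((continuous_tr w).pow j)
  have hcov : K ⊆ ⋃ j, U j := by
    intro E hE
    obtain ⟨h1, h2⟩ := hKS E hE
    rw [eval_dp] at h1 h2
    obtain ⟨Q, j, h3, h4⟩ := ex_form (det_tr E w) (det_tr E d) h1 (by
      rw [hJ]; intro h; apply h2; linarith)
    exact Set.mem_iUnion.2 ⟨j, Q, h3, h4⟩
  obtain ⟨j0, hj0⟩ := hK.elim_directed_cover U hopen hcov hmono.directed_le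
  refine ⟨j0, fun j hj V B hB hV E hE => ?_⟩
  obtain ⟨Q', h3, h4⟩ := hmono hj (hj0 hE)
  refine not_mem_of_inc (Q := Q') ?_ ?_ ?_ ?_ hV hB
  · rw [List.length_append]; omega
  · rw [List.length_append]; omega
  · rw [tr_append, tr_pw]; exact h4
  · rw [tr_append, tr_pw, pow_succ, ← mul_assoc]; exact h4.mul (det_tr E w) h3

lemma two_bdd {lam : ℝ} (hl : 0 < lam) {V : ℤ → ℝ} (hV : ∀ n, V n = 0 ∨ V n = lam) :
    ∀ n, |V n| ≤ lam := by
  intro n
  rcases hV n with h | h <;> rw [h]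
  · simpa using hl.le
  · rw [abs_of_pos hl]

lemma spec_bdd {lam : ℝ} (hl : 0 < lam) {V : ℤ → ℝ} (hV : ∀ n, V n = 0 ∨ V n = lam) {E : ℝ}
    (hE : E ∈ Spec V) : E ∈ Set.Icc (-(2 + lam)) (2 + lam) := by
  by_contra hcon
  have h1 : 4 < (E - 0) ^ 2 ∧ 4 < (E - lam) ^ 2 := by
    rw [Set.mem_Icc, not_and_or, not_le, not_le] at hcon
    rcases hcon with h | h <;> constructor <;> nlinarith
  refine not_mem_of_inc (u0 := [0]) (u1 := [lam]) (Q := !![1, 0; 0, -1]) le_rfl le_rfl ?_ ?_ ?_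
    (two_bdd hl hV) hE
  · rw [tr_cons, tr_nil, one_mul]; exact inc_letter h1.1
  · rw [tr_cons, tr_nil, one_mul]; exact inc_letter h1.2
  · refine ⟨fun k => k, fun k => ?_⟩
    rcases hV k with h | h
    · exact Or.inl ⟨⟨h, trivial⟩, by simp⟩
    · exact Or.inr ⟨⟨h, trivial⟩, by simp⟩

lemma few_values {p : ℝ[X]} (hp : p.Monic) (hq : 1 ≤ p.natDegree) (c : ℝ) {S : Set ℝ} {δ : ℝ}
    (hδ : 0 < δ) (h1 : ∀ y ∈ S, ∃ s, ((p.eval s) ^ 2 ≤ 4 ∨ (p.eval s) ^ 2 = 4 + c) ∧ |y - s| < δ)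
    (h2 : ∀ s, (p.eval s) ^ 2 ≤ 4 → ∃ y ∈ S, |y - s| < δ) {T : Type} (χ : ℝ → T)
    (hχ : ∀ a ∈ S, ∀ b ∈ S, |a - b| ≤ 3 * δ → χ a = χ b) :
    ∃ F : Finset T, F.card ≤ 4 * p.natDegree ∧ ∀ y ∈ S, χ y ∈ F := by
  classical
  have hm : ∀ k : ℝ, (p ^ 2 - C k).Monic ∧ (p ^ 2 - C k).natDegree = 2 * p.natDegree := by
    intro k
    have hd : (C k).degree < (p ^ 2).degree := by
      refine lt_of_le_of_lt degree_C_le ?_
      rw [degree_eq_natDegree (hp.pow 2).ne_zero, hp.natDegree_pow]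
      exact_mod_cast (by omega : 0 < 2 * p.natDegree)
    refine ⟨(hp.pow 2).sub_of_left hd, ?_⟩
    rw [natDegree_sub_eq_left_of_natDegree_lt, hp.natDegree_pow]
    rw [natDegree_C, hp.natDegree_pow]; omega
  let R : Finset ℝ := (p ^ 2 - C 4).roots.toFinset ∪ (p ^ 2 - C (4 + c)).roots.toFinset
  have hR : R.card ≤ 4 * p.natDegree := by
    refine (Finset.card_union_le _ _).trans ?_
    have a1 := (Multiset.toFinset_card_le _).trans (card_roots' (p ^ 2 - C 4))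
    have a2 := (Multiset.toFinset_card_le _).trans (card_roots' (p ^ 2 - C (4 + c)))
    rw [(hm _).2] at a1 a2
    omega
  have hmem : ∀ k s : ℝ, s ∈ (p ^ 2 - C k).roots.toFinset ↔ (p.eval s) ^ 2 = k := by
    intro k s
    rw [Multiset.mem_toFinset, mem_roots (hm k).1.ne_zero, IsRoot.def]
    simp [sub_eq_zero]
  let ψ : ℝ → T := fun s => if h : ∃ y ∈ S, |y - s| < δ then χ h.choose else χ 0
  have hψ : ∀ s s', ∀ y ∈ S, |y - s'| < δ → (∃ y ∈ S, |y - s| < δ) → |s - s'| ≤ δ → ψ s = χ y := by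
    intro s s' y hy h3 h4 h5
    simp only [ψ, dif_pos h4]
    apply hχ _ h4.choose_spec.1 _ hy
    have h6 := h4.choose_spec.2
    rw [abs_lt] at h3 h6
    rw [abs_le] at h5 ⊢
    constructor <;> linarith [h3.1, h3.2, h5.1, h5.2, h6.1, h6.2]
  refine ⟨R.image ψ, Finset.card_image_le.trans hR, fun y hy => ?_⟩
  obtain ⟨s, h3, h4⟩ := h1 y hy
  have h5 : ψ s = χ y := hψ s s y hy h4 ⟨y, hy, h4⟩ (by simpa using hδ.le)
  rw [← h5]
  rcases h3 with h3 | h3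
  swap
  · exact Finset.mem_image_of_mem _ (Finset.mem_union_right _ ((hmem _ _).2 h3))
  have hcont : Continuous fun x => (p.eval x) ^ 2 := p.continuous.pow 2
  have ivt : ∀ z ≤ s, 4 ≤ (p.eval z) ^ 2 → ∃ r, z ≤ r ∧ r ≤ s ∧ (p.eval r) ^ 2 = 4 := by
    intro z hz h6
    obtain ⟨r, h7, h8⟩ := intermediate_value_Icc' hz hcont.continuousOn ⟨h3, h6⟩
    exact ⟨r, h7.1, h7.2, h8⟩
  obtain ⟨z0, hz0, hz1⟩ : ∃ z ≤ s, 4 ≤ (p.eval z) ^ 2 := by
    have ht := p.tendsto_norm_atTop (natDegree_pos_iff_degree_pos.1 hq) (l := atBot)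
      (z := fun x : ℝ => x) tendsto_abs_atBot_atTop
    obtain ⟨z, a1, a2⟩ := ((ht.eventually (eventually_ge_atTop 2)).and (eventually_le_atBot s)).exists
    refine ⟨z, a2, ?_⟩
    rw [Real.norm_eq_abs] at a1
    nlinarith [sq_abs (p.eval z)]
  let Z := ((p ^ 2 - C 4).roots.toFinset).filter (· ≤ s)
  have hZ : Z.Nonempty := by
    obtain ⟨r, -, a1, a2⟩ := ivt z0 hz0 hz1
    exact ⟨r, Finset.mem_filter.2 ⟨(hmem _ _).2 a2, a1⟩⟩
  set r := Z.max' hZ
  have hr := Finset.mem_filter.1 (Z.max'_mem hZ)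
  have hband : ∀ z, r ≤ z → z ≤ s → (p.eval z) ^ 2 ≤ 4 := by
    intro z a1 a2
    by_contra hcon
    push Not at hcon
    obtain ⟨r', b1, b2, b3⟩ := ivt z a2 hcon.le
    have b4 : r' ≤ r := Z.le_max' r' (Finset.mem_filter.2 ⟨(hmem _ _).2 b3, b2⟩)
    have b5 : z = r' := le_antisymm b1 (b4.trans a1)
    rw [b5, b3] at hcon
    exact lt_irrefl _ hcon
  have hind : ∀ n : ℕ, ψ (max r (s - n * δ)) = ψ s := by
    intro n
    induction n with
    | zero =>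
      have : r ≤ s := hr.2
      simp [max_eq_right this]
    | succ n ih =>
      rw [← ih]
      have hn : (0 : ℝ) ≤ n * δ := by positivity
      have b1 := h2 _ (hband (max r (s - n * δ)) (le_max_left _ _) (max_le hr.2 (by linarith)))
      have b2 := h2 _ (hband (max r (s - (n + 1 : ℕ) * δ)) (le_max_left _ _)
        (max_le hr.2 (by push_cast; linarith)))
      obtain ⟨y', hy', b3⟩ := b1
      rw [hψ _ _ y' hy' b3 ⟨y', hy', b3⟩ (by simpa using hδ.le)]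
      apply hψ _ _ y' hy' b3 b2
      refine (abs_max_sub_max_le_max _ _ _ _).trans ?_
      push_cast
      rw [sub_self, abs_zero, show s - (n + 1) * δ - (s - n * δ) = -δ by ring, abs_neg,
        abs_of_pos hδ, max_eq_right hδ.le]
  obtain ⟨n, hn⟩ := exists_nat_ge ((s - r) / δ)
  rw [div_le_iff₀ hδ] at hn
  rw [← hind n, max_eq_left (by linarith)]
  exact Finset.mem_image_of_mem _ (Finset.mem_union_left _ hr.1)

lemma exists_pos_le {α : Type} (s : Finset α) (f : α → ℝ) (h : ∀ a ∈ s, 0 < f a) :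
    ∃ ε, 0 < ε ∧ ∀ a ∈ s, ε ≤ f a := by
  rcases s.eq_empty_or_nonempty with rfl | hs
  · exact ⟨1, one_pos, by simp⟩
  · obtain ⟨a, ha, h1⟩ := s.exists_min_image f hs
    exact ⟨f a, h a ha, h1⟩

lemma exists_gap {p : ℝ[X]} (hp : p.Monic) (hq : 1 ≤ p.natDegree) (c : ℝ) {e e' ξ : ℝ}
    (h1 : ξ ∈ Set.Ioo e e') (h2 : 4 < (p.eval ξ) ^ 2) : ∃ g η : ℝ, 0 < η ∧
      ∀ x ∈ Set.Icc (g - η) (g + η), x ∈ Set.Ioo e e' ∧ 4 < (p.eval x) ^ 2 ∧ (p.eval x) ^ 2 ≠ 4 + c := by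
  have hcont : Continuous fun x => (p.eval x) ^ 2 := p.continuous.pow 2
  have hne : p ^ 2 - C (4 + c) ≠ 0 := by
    intro h
    have := congrArg natDegree (sub_eq_zero.1 h)
    rw [hp.natDegree_pow, natDegree_C] at this
    omega
  have hfin : {x | (p.eval x) ^ 2 = 4 + c}.Finite := by
    refine (p ^ 2 - C (4 + c)).roots.toFinset.finite_toSet.subset ?_
    intro x hx
    simp only [Finset.mem_coe, Multiset.mem_toFinset, mem_roots hne, IsRoot.def, eval_sub, eval_pow,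
      eval_C, sub_eq_zero]
    exact hx
  have ho : IsOpen (Set.Ioo e e' ∩ {x | 4 < (p.eval x) ^ 2}) :=
    isOpen_Ioo.inter (isOpen_lt continuous_const hcont)
  obtain ⟨g, hg1, hg2⟩ := (hfin.countable.dense_compl ℝ).inter_open_nonempty _ ho ⟨ξ, h1, h2⟩
  have ho2 : IsOpen ((Set.Ioo e e' ∩ {x | 4 < (p.eval x) ^ 2}) ∩ {x | (p.eval x) ^ 2 = 4 + c}ᶜ) :=
    ho.inter hfin.isClosed.isOpen_compl
  obtain ⟨η, hη, h3⟩ := Metric.nhds_basis_closedBall.mem_iff.1 (ho2.mem_nhds ⟨hg1, hg2⟩)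
  refine ⟨g, η, hη, fun x hx => ?_⟩
  rw [← Real.closedBall_eq_Icc] at hx
  obtain ⟨⟨a1, a2⟩, a3⟩ := h3 hx
  exact ⟨a1, a2, a3⟩

lemma cat_run {V : ℤ → ℝ} {w d : List ℝ} {j : ℕ} (h : Cat V (pw w j ++ d) (pw w (j + 1) ++ d)) :
    ∃ t, Blk V t (pw w j) := by
  obtain ⟨t, ht⟩ := h
  rcases ht 0 with h | h
  · exact ⟨t 0, ((blk_append _ _ _ _).1 h.1).1⟩
  · have := ((blk_append _ _ _ _).1 h.1).1
    rw [pw, blk_append] at this
    exact ⟨t 0, this.1⟩

lemma exists_j {δ : ℝ} (hδ : 0 < δ) : ∃ j0 : ℕ, ∀ j : ℕ, j0 ≤ j → 16 < j * δ ^ 2 := by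
  obtain ⟨n, hn⟩ := exists_nat_gt (16 / δ ^ 2)
  rw [div_lt_iff₀ (by positivity)] at hn
  refine ⟨n, fun j hj => lt_of_lt_of_le hn ?_⟩
  have : (n : ℝ) ≤ j := by exact_mod_cast hj
  exact mul_le_mul_of_nonneg_right this (sq_nonneg _)

/-- no Lipschitz surjection between the two spectra -/
theorem level {lam : ℝ} (hl : 0 < lam) {w d w' d' : List ℝ} (hw : 1 ≤ w.length)
    (hd : 1 ≤ d.length) (hd' : 1 ≤ d'.length) (hww : 5 * w.length ≤ w'.length)
    (hJ : ∀ E : ℝ, JJ (tr E w) (tr E d) = -lam ^ 2)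
    (hJ' : ∀ E : ℝ, JJ (tr E w') (tr E d') = -lam ^ 2) (L : ℕ) :
    ∃ j0 : ℕ, ∀ j, j0 ≤ j → ∀ V V' : ℤ → ℝ, (∀ n, V n = 0 ∨ V n = lam) →
      (∀ n, V' n = 0 ∨ V' n = lam) → Cat V (pw w j ++ d) (pw w (j + 1) ++ d) →
      Cat V' (pw w' j ++ d') (pw w' (j + 1) ++ d') → ∀ f : ℝ → ℝ,
      (∀ a ∈ Spec V, ∀ b ∈ Spec V, |f a - f b| ≤ L * |a - b|) → f '' Spec V ≠ Spec V' := by
  classical
  have hw2 : 2 ≤ w'.length := by omega
  have hns : ∀ E : ℝ, ¬ (tr E w' 0 1 = 0 ∧ tr E w' 1 0 = 0 ∧ tr E w' 0 0 = tr E w' 1 1) :=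
    fun E => not_scalar (D := tr E d') (by rw [hJ']; exact neg_ne_zero.2 (by positivity))
  obtain ⟨m1, m2⟩ := dp_monic (w := w) (by rintro rfl; simp at hw)
  obtain ⟨m1', m2'⟩ := dp_monic (w := w') (by rintro rfl; simp at hw2)
  set Z := (dp w').roots.toFinset with hZ
  have hZc : Z.card = w'.length := card_roots_dp hw2 hns
  have hZm : ∀ e ∈ Z, (dp w').eval e = 0 := fun e he =>
    ((mem_roots m1'.ne_zero).1 (Multiset.mem_toFinset.1 he)).eq_zero
  set P := (Z ×ˢ Z).filter fun x => x.1 < x.2 with hP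
  have hgap : ∀ x : ℝ × ℝ, ∃ g η : ℝ, x ∈ P → 0 < η ∧ ∀ y ∈ Set.Icc (g - η) (g + η),
      y ∈ Set.Ioo x.1 x.2 ∧ 4 < ((dp w').eval y) ^ 2 ∧ ((dp w').eval y) ^ 2 ≠ 4 + lam ^ 2 := by
    intro x
    by_cases hx : x ∈ P
    · obtain ⟨a1, a2⟩ := Finset.mem_filter.1 hx
      obtain ⟨a3, a4⟩ := Finset.mem_product.1 a1
      obtain ⟨ξ, b1, b2⟩ := between_roots hw2 hns a2 (hZm _ a3) (hZm _ a4)
      obtain ⟨g, η, h⟩ := exists_gap m1' (by omega) (lam ^ 2) b1 b2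
      exact ⟨g, η, fun _ => h⟩
    · exact ⟨0, 0, fun h => absurd h hx⟩
  choose g η hg using hgap
  obtain ⟨ε, hε, hεη⟩ := exists_pos_le P η (fun x hx => (hg x hx).1)
  have hK' : IsCompact (⋃ x ∈ P, Set.Icc (g x - η x) (g x + η x)) :=
    P.isCompact_biUnion fun x _ => isCompact_Icc
  obtain ⟨j1, hj1⟩ := upper hd' hJ' hK' (by
    intro E hE
    simp only [Set.mem_iUnion] at hE
    obtain ⟨x, hx, hE⟩ := hE
    exact ((hg x hx).2 E hE).2)
  obtain ⟨j2, hj2⟩ := exists_j hε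
  set δ := ε / (3 * (L + 1)) with hδdef
  have hδ : 0 < δ := by positivity
  have hδε : (L : ℝ) * (3 * δ) ≤ ε := by
    have : (3 * (L + 1)) * δ = ε := by rw [hδdef]; field_simp
    nlinarith
  obtain ⟨j3, hj3⟩ := exists_j hδ
  set S := {s | ((dp w).eval s) ^ 2 ≤ 4 ∨ ((dp w).eval s) ^ 2 = 4 + lam ^ 2} with hS
  have hK : IsCompact (Set.Icc (-(2 + lam)) (2 + lam) \ Metric.thickening δ S) :=
    isCompact_Icc.diff Metric.isOpen_thickening
  obtain ⟨j4, hj4⟩ := upper hd hJ hK (by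
    intro E hE
    have : E ∉ S := fun h => hE.2 (Metric.self_subset_thickening hδ S h)
    rw [hS, Set.mem_ofPred_eq, not_or, not_le] at this
    exact this)
  refine ⟨j1 + j2 + j3 + j4, fun j hj V V' hV hV' hc hc' f hf hfe => ?_⟩
  obtain ⟨t, ht⟩ := cat_run hc
  obtain ⟨t', ht'⟩ := cat_run hc'
  have hgapV : ∀ x ∈ P, ∀ y ∈ Spec V', y ∉ Set.Icc (g x - η x) (g x + η x) := by
    intro x hx y hy hy'
    refine hj1 j (by omega) V' lam (two_bdd hl hV') hc' y ?_ hy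
    simp only [Set.mem_iUnion]
    exact ⟨x, hx, hy'⟩
  let χ : ℝ → Finset (ℝ × ℝ) := fun y => P.filter fun x => g x < y
  have hχ : ∀ a ∈ Spec V', ∀ b ∈ Spec V', |a - b| ≤ ε → χ a = χ b := by
    have key : ∀ a ∈ Spec V', ∀ b : ℝ, |a - b| ≤ ε → ∀ x ∈ P, g x < a → g x < b := by
      intro a ha b hab x hx h1
      have h2 := hgapV x hx a ha
      have h3 := hεη x hx
      rw [Set.mem_Icc, not_and_or, not_le, not_le] at h2
      rw [abs_le] at hab
      rcases h2 with h2 | h2 <;> linarith [hab.1, hab.2]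
    intro a ha b hb hab
    apply Finset.filter_congr
    intro x hx
    exact ⟨key a ha b hab x hx, key b hb a (by rwa [abs_sub_comm]) x hx⟩
  obtain ⟨F, hF1, hF2⟩ := few_values m1 (by omega) (lam ^ 2) (S := Spec V) hδ (by
      intro y hy
      by_contra hcon
      refine hj4 j (by omega) V lam (two_bdd hl hV) hc y ⟨spec_bdd hl hV hy, ?_⟩ hy
      intro h
      obtain ⟨z, hz, h2⟩ := Metric.mem_thickening_iff.1 h
      exact hcon ⟨z, hz, h2⟩)
    (fun s hs => lower (two_bdd hl hV) hw ht hδ (hj3 j (by omega)) hs) (fun y => χ (f y)) (by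
      intro a ha b hb hab
      apply hχ
      · rw [← hfe]; exact ⟨a, ha, rfl⟩
      · rw [← hfe]; exact ⟨b, hb, rfl⟩
      · refine (hf a ha b hb).trans (le_trans ?_ hδε)
        exact mul_le_mul_of_nonneg_left hab (Nat.cast_nonneg L))
  have hz : ∀ e : ℝ, ∃ z, e ∈ Z → z ∈ Spec V' ∧ |z - e| < ε := by
    intro e
    by_cases he : e ∈ Z
    · obtain ⟨z, h1, h2⟩ := lower (two_bdd hl hV') (by omega : 1 ≤ w'.length) ht' hε
        (hj2 j (by omega)) (E := e) (by rw [hZm e he]; norm_num)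
      exact ⟨z, fun _ => ⟨h1, h2⟩⟩
    · exact ⟨0, fun h => absurd h he⟩
  choose z hz using hz
  have hinj : Set.InjOn (fun e => χ (z e)) Z := by
    have key : ∀ e ∈ Z, ∀ e' ∈ Z, e < e' → χ (z e) ≠ χ (z e') := by
      intro e he e' he' hlt heq
      have hx : (e, e') ∈ P := Finset.mem_filter.2 ⟨Finset.mem_product.2 ⟨he, he'⟩, hlt⟩
      obtain ⟨a1, a2⟩ := hg _ hx
      have a3 := (a2 (g (e, e') - η (e, e')) ⟨le_rfl, by linarith⟩).1.1
      have a4 := (a2 (g (e, e') + η (e, e')) ⟨by linarith, le_rfl⟩).1.2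
      have a5 := hεη _ hx
      have a6 := abs_lt.1 (hz e he).2
      have a7 := abs_lt.1 (hz e' he').2
      have a8 : (e, e') ∈ χ (z e') := Finset.mem_filter.2 ⟨hx, by
        simp only at a4; linarith [a7.1]⟩
      rw [← heq] at a8
      have a9 := (Finset.mem_filter.1 a8).2
      simp only at a3
      linarith [a6.2]
    intro e he e' he' heq
    rcases lt_trichotomy e e' with h | h | h
    · exact absurd heq (key e he e' he' h)
    · exact h
    · exact absurd heq.symm (key e' he' e he h)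
  have hle : Z.card ≤ F.card := by
    apply Finset.card_le_card_of_injOn (fun e => χ (z e)) _ hinj
    intro e he
    have h1 := (hz e he).1
    rw [← hfe] at h1
    obtain ⟨y, hy, h2⟩ := h1
    have := hF2 y hy
    simp only [h2] at this
    exact this
  omega

end Pool.Agent.H566Z.St
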