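import Mathlib
import Pool.Agent.H566Z.St5

/-! Renormalisation of balanced sequences and the choice of the frequency. -/

set_option autoImplicit false

namespace Pool.Agent.H566Z.St

open Filter Topology

/-- balanced integer sequences of slope `γ` -/
def Bal (γ : ℝ) (g : ℤ → ℤ) : Prop := ∀ k k' : ℤ, (g k : ℝ) - g k' - (k - k') * γ < 1

/-- `V` is the concatenation of the words `w`, `d` along a balanced sequence of slope `γ` -/
def Dec (V : ℤ → ℝ) (γ : ℝ) (w d : List ℝ) : Prop :=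
  ∃ g t : ℤ → ℤ, Bal γ g ∧ ∀ k, (g (k + 1) = g k → Blk V (t k) w ∧ t (k + 1) = t k + w.length) ∧
    (g (k + 1) = g k + 1 → Blk V (t k) d ∧ t (k + 1) = t k + d.length)

lemma Bal.step {γ : ℝ} (h0 : 0 < γ) (h1 : γ < 1) {g : ℤ → ℤ} (h : Bal γ g) (k : ℤ) :
    g (k + 1) = g k ∨ g (k + 1) = g k + 1 := by
  have a1 := h (k + 1) k
  have a2 := h k (k + 1)
  push_cast at a1 a2
  have b1 : ((g (k + 1) - g k : ℤ) : ℝ) < 2 := by push_cast; linarith
  have b2 : (-1 : ℝ) < ((g (k + 1) - g k : ℤ) : ℝ) := by push_cast; linarith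
  have c1 : g (k + 1) - g k < 2 := by exact_mod_cast b1
  have c2 : -1 < g (k + 1) - g k := by exact_mod_cast b2
  omega

lemma Dec.cat {V : ℤ → ℝ} {γ : ℝ} (h0 : 0 < γ) (h1 : γ < 1) {w d : List ℝ} (h : Dec V γ w d) :
    Cat V w d := by
  obtain ⟨g, t, hg, ht⟩ := h
  refine ⟨t, fun k => ?_⟩
  rcases hg.step h0 h1 k with h | h
  · exact Or.inl ((ht k).1 h)
  · exact Or.inr ((ht k).2 h)

lemma Dec.renorm {V : ℤ → ℝ} {γ γ' : ℝ} {j : ℕ} (h0 : 0 < γ) (h1 : γ < 1)
    (hγ : γ * (j + 1 + γ') = 1) {w d : List ℝ} (h : Dec V γ w d) :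
    Dec V γ' (pw w j ++ d) (pw w (j + 1) ++ d) := by
  obtain ⟨g, t, hg, ht⟩ := h
  have hst := hg.step h0 h1
  have hmono : Monotone g := monotone_int_of_le_succ fun k => by
    rcases hst k with h | h <;> omega
  have hex : ∀ m : ℤ, ∃ k, m ≤ g k ∧ ∀ k', m ≤ g k' → k ≤ k' := by
    intro m
    apply Int.exists_least_of_bdd
    · refine ⟨⌊(m - g 0 - 1) / γ⌋, fun k hk => ?_⟩
      have a1 := hg k 0
      have a2 : (m : ℝ) ≤ g k := by exact_mod_cast hk
      have a3 : (m - g 0 - 1) / γ ≤ k := by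
        rw [div_le_iff₀ h0]; push_cast at a1; linarith
      have a4 : (⌊(m - g 0 - 1) / γ⌋ : ℝ) ≤ k := (Int.floor_le _).trans a3
      exact_mod_cast a4
    · refine ⟨⌈(m - g 0 + 1) / γ⌉, ?_⟩
      have a1 := hg 0 ⌈(m - g 0 + 1) / γ⌉
      have a3 := Int.le_ceil ((m - g 0 + 1) / γ)
      rw [div_le_iff₀ h0] at a3
      have a4 : (m : ℝ) ≤ g ⌈(m - g 0 + 1) / γ⌉ := by push_cast at a1; linarith
      exact_mod_cast a4
  choose n hn1 hn2 using hex
  have hn3 : ∀ m, g (n m - 1) = m - 1 ∧ g (n m) = m := by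
    intro m
    have a1 := hn1 m
    have a2 : ¬ m ≤ g (n m - 1) := fun h => by have := hn2 m _ h; omega
    have a3 := hst (n m - 1)
    rw [sub_add_cancel] at a3
    omega
  have hmid : ∀ m k, n m ≤ k → k < n (m + 1) → g k = m := by
    intro m k a1 a2
    have a3 := hmono a1
    rw [(hn3 m).2] at a3
    have a4 : ¬ m + 1 ≤ g k := fun h => by have := hn2 _ _ h; omega
    omega
  have hrun : ∀ m (i : ℕ), n m + i < n (m + 1) →
      Blk V (t (n m)) (pw w i) ∧ t (n m + i) = t (n m) + (pw w i).length := by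
    intro m i
    induction i with
    | zero => intro _; simp [pw, Blk]
    | succ i ih =>
      intro hi
      push_cast at hi ⊢
      obtain ⟨a1, a2⟩ := ih (by omega)
      have a3 := (ht (n m + i)).1 (by
        rw [hmid m _ (by omega) (by omega), hmid m _ (by omega) (by omega)])
      rw [pw, blk_append, ← a2, ← add_assoc, a3.2, a2, List.length_append]
      refine ⟨⟨a1, by rw [← a2]; exact a3.1⟩, ?_⟩
      push_cast; ring
  have hblock : ∀ m (i : ℕ), n (m + 1) = n m + i + 1 →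
      Blk V (t (n m)) (pw w i ++ d) ∧ t (n (m + 1)) = t (n m) + (pw w i ++ d).length := by
    intro m i hi
    obtain ⟨a1, a2⟩ := hrun m i (by omega)
    have a3 := (ht (n m + i)).2 (by
      rw [← hi, (hn3 (m + 1)).2, hmid m _ (by omega) (by omega)])
    rw [blk_append, ← a2, hi, a3.2, a2, List.length_append]
    refine ⟨⟨a1, by rw [← a2]; exact a3.1⟩, ?_⟩
    push_cast; ring
  refine ⟨fun m => n m - (j + 1) * m, fun m => t (n m), ?_, fun m => ⟨fun h => ?_, fun h => ?_⟩⟩
  · intro m m'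
    have a1 := hg (n m') (n m - 1)
    rw [(hn3 m').2, (hn3 m).1] at a1
    push_cast at a1 ⊢
    have a2 : γ * ((n m : ℝ) - (j + 1) * m - (n m' - (j + 1) * m') - (m - m') * γ') < γ * 1 := by
      have : γ * ((n m : ℝ) - (j + 1) * m - (n m' - (j + 1) * m') - (m - m') * γ') =
          γ * (n m - n m') - (m - m') * (γ * (j + 1 + γ')) := by ring
      rw [this, hγ]
      linarith
    exact lt_of_mul_lt_mul_left a2 h0.le
  · apply hblock m j
    simp only at h
    linarith
  · apply hblock m (j + 1)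
    simp only at h
    push_cast
    linarith

/-- the Sturmian potential -/
noncomputable def pot (lam γ : ℝ) (n : ℤ) : ℝ :=
  lam * (if 1 - γ ≤ Int.fract ((n : ℝ) * γ) then (1 : ℝ) else 0)

lemma pot_two (lam γ : ℝ) (n : ℤ) : pot lam γ n = 0 ∨ pot lam γ n = lam := by
  unfold pot
  split_ifs <;> simp

lemma dec_base (lam : ℝ) {γ : ℝ} : Dec (pot lam γ) γ [0] [lam] := by
  refine ⟨fun k => ⌊(k : ℝ) * γ⌋, fun k => k, ?_, fun k => ⟨fun h => ?_, fun h => ?_⟩⟩
  · intro k k'
    have a1 := Int.floor_le ((k : ℝ) * γ)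
    have a2 := Int.lt_floor_add_one ((k' : ℝ) * γ)
    simp only
    linarith
  · refine ⟨⟨?_, trivial⟩, by simp⟩
    unfold pot
    rw [if_neg, mul_zero]
    intro h2
    have a1 := Int.lt_floor_add_one (((k + 1 : ℤ) : ℝ) * γ)
    simp only at h
    rw [h] at a1
    rw [Int.fract] at h2
    push_cast at a1
    linarith
  · refine ⟨⟨?_, trivial⟩, by simp⟩
    unfold pot
    rw [if_pos, mul_one]
    have a1 := Int.floor_le (((k + 1 : ℤ) : ℝ) * γ)
    simp only at h
    rw [h] at a1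
    rw [Int.fract]
    push_cast at a1
    linarith

lemma exists_digits (a : ℕ → ℕ) : ∃ γ : ℕ → ℝ, (∀ n, 0 < γ n ∧ γ n < 1) ∧
    (∀ n, γ n * (a n + 2 + γ (n + 1)) = 1) ∧ Irrational (γ 0) := by
  let φ : ℕ → ℝ → ℝ := fun n x => 1 / (a n + 2 + x)
  let F : ℕ → Set (ℕ → ℝ) := fun N =>
    {γ | (∀ n, γ n ∈ Set.Icc (0 : ℝ) 1) ∧ ∀ n < N, γ n * (a n + 2 + γ (n + 1)) = 1}
  have hne : ∀ N, (F N).Nonempty := by
    have key : ∀ N : ℕ, ∀ s : ℕ, ∃ γ : ℕ → ℝ, (∀ n, γ n ∈ Set.Icc (0 : ℝ) 1) ∧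
        ∀ n < N, γ n * (a (s + n) + 2 + γ (n + 1)) = 1 := by
      intro N
      induction N with
      | zero => intro s; exact ⟨fun _ => 0, fun _ => ⟨le_rfl, zero_le_one⟩, by simp⟩
      | succ N ih =>
        intro s
        obtain ⟨γ, h1, h2⟩ := ih (s + 1)
        have hp : (0 : ℝ) < a s + 2 + γ 0 := by have := (h1 0).1; positivity
        refine ⟨fun n => Nat.rec (1 / (a s + 2 + γ 0)) (fun k _ => γ k) n, ?_, ?_⟩
        · intro n
          cases n with
          | zero =>
            refine ⟨(one_div_pos.2 hp).le, ?_⟩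
            show 1 / (a s + 2 + γ 0) ≤ 1
            rw [div_le_one hp]
            have := (h1 0).1
            have : (0 : ℝ) ≤ a s := Nat.cast_nonneg _
            linarith
          | succ n => exact h1 n
        · intro n hn
          cases n with
          | zero =>
            show 1 / (a s + 2 + γ 0) * (a (s + 0) + 2 + γ 0) = 1
            rw [add_zero]
            field_simp
          | succ n =>
            have := h2 n (by omega)
            rw [show s + 1 + n = s + (n + 1) by ring] at this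
            exact this
    intro N
    obtain ⟨γ, h1, h2⟩ := key N 0
    exact ⟨γ, h1, by simpa using h2⟩
  have hcl : ∀ N, IsClosed (F N) := by
    intro N
    simp only [F, Set.ofPred_and, Set.ofPred_forall]
    refine (isClosed_iInter fun n => isClosed_Icc.preimage (continuous_apply n)).inter
      (isClosed_iInter fun n => isClosed_iInter fun _ => isClosed_eq ?_ continuous_const)
    fun_prop
  have hcp : IsCompact (F 0) := by
    refine (isCompact_univ_pi fun _ : ℕ => (isCompact_Icc : IsCompact (Set.Icc (0 : ℝ) 1))).of_isClosed_subset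
      (hcl 0) ?_
    intro γ hγ n _
    exact hγ.1 n
  obtain ⟨γ, hγ⟩ := IsCompact.nonempty_iInter_of_sequence_nonempty_isCompact_isClosed F
    (fun N γ h => ⟨h.1, fun n hn => h.2 n (by omega)⟩) hne hcp hcl
  rw [Set.mem_iInter] at hγ
  have h1 := (hγ 0).1
  have h2 : ∀ n, γ n * (a n + 2 + γ (n + 1)) = 1 := fun n => (hγ (n + 1)).2 n (by omega)
  have h3 : ∀ n, 0 < γ n ∧ γ n < 1 := by
    intro n
    have a1 := h1 n
    have a2 := h1 (n + 1)
    have a3 := h2 n
    have a4 : (0 : ℝ) ≤ a n := Nat.cast_nonneg _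
    constructor
    · rcases a1.1.eq_or_lt with h | h
      · rw [← h] at a3; simp at a3
      · exact h
    · by_contra hcon
      push Not at hcon
      nlinarith [a2.1]
  refine ⟨γ, h3, h2, ?_⟩
  have key : ∀ q : ℕ, ∀ n, ∀ p : ℤ, γ n * q = p → q = 0 := by
    intro q
    induction q using Nat.strong_induction_on with
    | _ q ih =>
      intro n p hp
      by_contra hq
      have hq0 : (0 : ℝ) < q := by exact_mod_cast Nat.pos_of_ne_zero hq
      have a1 := h3 n
      have a2 : (0 : ℝ) < p := by rw [← hp]; exact mul_pos a1.1 hq0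
      have a3 : (p : ℝ) < q := by rw [← hp]; nlinarith
      have a2' : 0 < p := by exact_mod_cast a2
      have a3' : p < q := by exact_mod_cast a3
      obtain ⟨r, rfl⟩ : ∃ r : ℕ, p = r := ⟨p.toNat, by omega⟩
      have := ih r (by omega) (n + 1) (q - (a n + 2) * r) (by
        push_cast at hp ⊢
        rw [← hp]
        linear_combination (q : ℝ) * h2 n)
      omega
  rintro ⟨x, hx⟩
  have := key x.den 0 x.num (by rw [← hx]; exact_mod_cast Rat.mul_den_eq_num x)
  exact x.den_nz this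

structure Sta where
  w : List ℝ
  d : List ℝ
  w' : List ℝ
  d' : List ℝ

def Sta.next (s : Sta) (j : ℕ) : Sta :=
  ⟨pw s.w j ++ s.d, pw s.w (j + 1) ++ s.d, pw s.w' j ++ s.d', pw s.w' (j + 1) ++ s.d'⟩

def Sta.Ok (lam : ℝ) (s : Sta) : Prop :=
  1 ≤ s.w.length ∧ 1 ≤ s.d.length ∧ 5 * s.w.length ≤ s.w'.length ∧ 5 * s.d.length ≤ s.d'.length ∧
    (∀ E : ℝ, JJ (tr E s.w) (tr E s.d) = -lam ^ 2) ∧ ∀ E : ℝ, JJ (tr E s.w') (tr E s.d') = -lam ^ 2

lemma JJ_next (E : ℝ) (w d : List ℝ) (j : ℕ) :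
    JJ (tr E (pw w j ++ d)) (tr E (pw w (j + 1) ++ d)) = JJ (tr E w) (tr E d) := by
  rw [tr_append, tr_append, tr_pw, tr_pw, JJ_step _ _ (det_tr E w) (det_tr E d)]

lemma Sta.Ok.next {lam : ℝ} {s : Sta} (h : s.Ok lam) (j : ℕ) : (s.next j).Ok lam := by
  obtain ⟨h1, h2, h3, h4, h5, h6⟩ := h
  refine ⟨?_, ?_, ?_, ?_, fun E => ?_, fun E => ?_⟩
  · simp only [Sta.next, List.length_append]; omega
  · simp only [Sta.next, List.length_append]; omega
  · simp only [Sta.next, List.length_append, length_pw]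
    nlinarith [Nat.mul_le_mul_left j h3]
  · simp only [Sta.next, List.length_append, length_pw]
    nlinarith [Nat.mul_le_mul_left (j + 1) h3]
  · simp only [Sta.next]; rw [JJ_next, h5]
  · simp only [Sta.next]; rw [JJ_next, h6]

theorem main {lam : ℝ} (hl : 0 < lam) : ∃ α : ℝ, Irrational α ∧ 0 < α ∧ α < 1 ∧
    ∀ (f : ℝ → ℝ) (L : ℕ), (∀ a ∈ Spec (pot lam α), ∀ b ∈ Spec (pot lam α),
      |f a - f b| ≤ L * |a - b|) → f '' Spec (pot lam α) ≠ Spec (pot lam (1 / (5 + α))) := by
  have hlev : ∀ (s : Sta) (L : ℕ), ∃ j0 : ℕ, s.Ok lam → ∀ j, j0 ≤ j → ∀ V V' : ℤ → ℝ,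
      (∀ n, V n = 0 ∨ V n = lam) → (∀ n, V' n = 0 ∨ V' n = lam) →
      Cat V (s.next j).w (s.next j).d → Cat V' (s.next j).w' (s.next j).d' → ∀ f : ℝ → ℝ,
      (∀ a ∈ Spec V, ∀ b ∈ Spec V, |f a - f b| ≤ L * |a - b|) → f '' Spec V ≠ Spec V' := by
    intro s L
    by_cases h : s.Ok lam
    · obtain ⟨h1, h2, h3, h4, h5, h6⟩ := h
      obtain ⟨j0, hj⟩ := level hl h1 h2 (by omega : 1 ≤ s.d'.length) h3 h5 h6 L
      exact ⟨j0, fun _ => hj⟩
    · exact ⟨0, fun h' => absurd h' h⟩
  choose J hJ using hlev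
  let s0 : Sta := ⟨[0], [lam], pw [0] 4 ++ [lam], pw [0] (4 + 1) ++ [lam]⟩
  let s : ℕ → Sta := fun n => Nat.rec s0 (fun k sk => sk.next (J sk k + 1)) n
  have hs : ∀ n, s (n + 1) = (s n).next (J (s n) n + 1) := fun n => rfl
  have hok : ∀ n, (s n).Ok lam := by
    intro n
    induction n with
    | zero =>
      refine ⟨le_rfl, le_rfl, ?_, ?_, fun E => JJ_base E lam, fun E => ?_⟩
      · show 5 * 1 ≤ (pw [0] 4 ++ [lam]).length
        simp [length_pw]
      · show 5 * 1 ≤ (pw [0] (4 + 1) ++ [lam]).length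
        simp [length_pw]
      · show JJ (tr E (pw [0] 4 ++ [lam])) (tr E (pw [0] (4 + 1) ++ [lam])) = _
        rw [JJ_next, JJ_base]
    | succ n ih => rw [hs]; exact ih.next _
  obtain ⟨γ, h1, h2, h3⟩ := exists_digits fun n => J (s n) n
  have hdec : ∀ n, Dec (pot lam (γ 0)) (γ n) (s n).w (s n).d ∧
      Dec (pot lam (1 / (5 + γ 0))) (γ n) (s n).w' (s n).d' := by
    intro n
    induction n with
    | zero =>
      refine ⟨dec_base lam, ?_⟩
      have a1 := (h1 0).1
      refine Dec.renorm (γ := 1 / (5 + γ 0)) (j := 4) (by positivity) ?_ ?_ (dec_base lam)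
      · rw [div_lt_one (by positivity)]; linarith
      · push_cast
        field_simp
        ring
    | succ n ih =>
      have a1 : γ n * (((J (s n) n + 1 : ℕ) : ℝ) + 1 + γ (n + 1)) = 1 := by
        have := h2 n
        push_cast
        linarith
      exact ⟨ih.1.renorm (h1 n).1 (h1 n).2 a1, ih.2.renorm (h1 n).1 (h1 n).2 a1⟩
  refine ⟨γ 0, h3, (h1 0).1, (h1 0).2, fun f L hf => ?_⟩
  refine hJ (s L) L (hok L) (J (s L) L + 1) (by omega) _ _ (pot_two _ _) (pot_two _ _) ?_ ?_ f hf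
  · exact (hdec (L + 1)).1.cat (h1 _).1 (h1 _).2
  · exact (hdec (L + 1)).2.cat (h1 _).1 (h1 _).2

lemma cf_tail {α : ℝ} (h0 : 0 < α) (i : ℕ) :
    Stream'.Seq.get? (GenContFract.of (1 / (5 + α))).partDens (i + 1)
      = Stream'.Seq.get? (GenContFract.of α).partDens (i + 0) := by
  have hβ0 : 0 ≤ 1 / (5 + α) := by positivity
  have hβ1 : 1 / (5 + α) < 1 := by rw [div_lt_one (by positivity)]; linarith
  have e1 : (Int.fract (1 / (5 + α)))⁻¹ = 5 + α := by
    rw [Int.fract_eq_self.2 ⟨hβ0, hβ1⟩, one_div, inv_inv]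
  have e2 : (GenContFract.of (5 + α)).s = (GenContFract.of α).s := by
    have e3 : Int.fract (5 + α) = Int.fract α := by
      have := Int.fract_intCast_add (5 : ℤ) α
      exact_mod_cast this
    have e4 : (GenContFract.IntFractPair.stream (5 + α)).tail = (GenContFract.IntFractPair.stream α).tail := by
      funext n
      show GenContFract.IntFractPair.stream (5 + α) (n + 1) = GenContFract.IntFractPair.stream α (n + 1)
      induction n with
      | zero => simp [GenContFract.IntFractPair.stream, GenContFract.IntFractPair.of, e3]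
      | succ n ih => rw [GenContFract.IntFractPair.stream, ih, ← GenContFract.IntFractPair.stream]
    unfold GenContFract.of
    simp only [GenContFract.IntFractPair.seq1]
    congr 1
    exact Subtype.ext e4
  simp only [GenContFract.partDens, Stream'.Seq.map_get?, add_zero]
  rw [GenContFract.of_s_succ, e1, e2]

end Pool.Agent.H566Z.St
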